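import Pool.Agent.V7H63.Perm.Alg

/-!
# Counting parameters at a generic point, for multiples of a polynomial
-/

set_option autoImplicit false

open MvPolynomial

namespace Pool.Agent.V7H63.Perm

universe u

/-- a bit as an element of a ring -/
def bit {S : Type u} [CommRing S] (t : Bool) : S := if t then 1 else 0

section

variable {V K : Type} {F E : Type u} [Field F] [Field E] [Algebra F E]

/-- shift of the variables of a block by bits -/
noncomputable def shift {S : Type u} [CommRing S] (p : V → Option K) (u : K → Bool) :
    V → MvPolynomial V S :=
  fun v => X v + (p v).elim 0 (fun l => bit (u l))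

/-- the variables of a block are added to a point -/
noncomputable def gsub (p : V → Option K) (x : V → E) : V → MvPolynomial K E :=
  fun v => C (x v) + (p v).elim 0 X

lemma shift_ne_zero (p : V → Option K) (u : K → Bool) (Q : MvPolynomial V F) (hQ : Q ≠ 0) :
    aeval (shift (S := F) p u) Q ≠ 0 := by
  intro h
  apply hQ
  have h1 : aeval (fun v => (X v - (p v).elim 0 (fun l => bit (u l)) : MvPolynomial V F))
      (aeval (shift (S := F) p u) Q) = Q := by
    rw [← AlgHom.comp_apply, comp_aeval]
    have : (fun i => (aeval (fun v => (X v - (p v).elim 0 (fun l => bit (u l)) :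
        MvPolynomial V F))) (shift (S := F) p u i)) = X := by
      funext v
      rw [shift, map_add, aeval_X]
      rcases p v with _ | l
      · simp
      · simp only [Option.elim_some, bit]
        split_ifs <;> simp
    rw [this, aeval_X_left]
    rfl
  rw [← h1, h, map_zero]

lemma aeval_shift (p : V → Option K) (u : K → Bool) (x : V → E) (R : MvPolynomial V F) :
    aeval x (aeval (shift (S := F) p u) R) =
      aeval (fun v => x v + (p v).elim 0 (fun l => bit (u l))) R := by
  rw [← AlgHom.comp_apply, comp_aeval]
  congr 2
  funext v
  rw [shift, map_add, aeval_X]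
  rcases p v with _ | l
  · simp
  · simp only [Option.elim_some, bit]
    split_ifs <;> simp

/-- the line which joins two points -/
noncomputable def line {S : Type u} [CommRing S] (u u' : K → Bool) : K → Polynomial S :=
  fun l => Polynomial.C (bit (u l)) + Polynomial.X * Polynomial.C (bit (u' l) - bit (u l))

lemma line_zero {S : Type u} [CommRing S] (u u' : K → Bool) (l : K) :
    (line (S := S) u u' l).eval 0 = bit (u l) := by
  simp [line]

lemma line_one {S : Type u} [CommRing S] (u u' : K → Bool) (l : K) :
    (line (S := S) u u' l).eval 1 = bit (u' l) := by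
  simp [line]

/-- a polynomial at the points of a line -/
noncomputable def online (p : V → Option K) (x : V → E) (u u' : K → Bool)
    (R : MvPolynomial V F) : Polynomial E :=
  aeval (fun v => (Polynomial.C (x v) + (p v).elim 0 (line u u') : Polynomial E)) R

lemma online_eval (p : V → Option K) (x : V → E) (u u' : K → Bool) (R : MvPolynomial V F)
    (t : E) (w : K → Bool) (ht : ∀ l, (line (S := E) u u' l).eval t = bit (w l)) :
    (online p x u u' R).eval t = aeval x (aeval (shift (S := F) p w) R) := by
  rw [aeval_shift, online]
  have h1 : ∀ q : Polynomial E, q.eval t = (Polynomial.aeval t : Polynomial E →ₐ[E] E) q := by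
    intro q
    rw [Polynomial.coe_aeval_eq_eval]
  rw [h1]
  have h2 : (Polynomial.aeval t : Polynomial E →ₐ[E] E)
      ((aeval (fun v => (Polynomial.C (x v) + (p v).elim 0 (line u u') : Polynomial E))) R) =
      (((Polynomial.aeval t : Polynomial E →ₐ[E] E).restrictScalars F).comp
        (aeval (fun v => (Polynomial.C (x v) + (p v).elim 0 (line u u') : Polynomial E)))) R := rfl
  rw [h2, comp_aeval]
  congr 2
  funext v
  rw [AlgHom.restrictScalars_apply, map_add, Polynomial.aeval_C]
  rcases p v with _ | l
  · simp
  · simp only [Option.elim_some]
    rw [← h1, ht]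
    rfl

lemma online_gsub (p : V → Option K) (x : V → E) (u u' : K → Bool) (R : MvPolynomial V F) :
    online p x u u' R = aeval (line (S := E) u u') (aeval (gsub p x) R) := by
  rw [online]
  have h2 : (aeval (line (S := E) u u')) (aeval (gsub p x) R) =
      (((aeval (line (S := E) u u') : MvPolynomial K E →ₐ[E] Polynomial E).restrictScalars F).comp
        (aeval (gsub p x))) R := rfl
  rw [h2, comp_aeval]
  congr 2
  funext v
  rw [AlgHom.restrictScalars_apply, gsub, map_add, aeval_C]
  rcases p v with _ | l
  · simp
  · simp

variable [Fintype K]

/-- **Counting parameters.** If the values of `P` at the points of a cube around a generic point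
are algebraically independent, and a nonzero multiple `Q * P`, as a polynomial in the variables
of the block, has its coefficients in a ring which is generated by `N` elements, then
`2 ^ |K| ≤ N + 1`. -/
theorem count_bound (p : V → Option K) (x : V → E) (hx : AlgebraicIndependent F x)
    (P Q : MvPolynomial V F) (hQ : Q ≠ 0)
    (hP : AlgebraicIndependent F (fun u : K → Bool => aeval (shift (S := F) p u) P))
    (s : Set E) (N : ℕ) (hs : s.encard ≤ N) (L : Subalgebra F E) (hL : L = Algebra.adjoin F s)
    (G : MvPolynomial K L) (hG : map (algebraMap L E) G = aeval (gsub p x) (Q * P)) :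
    2 ^ Fintype.card K ≤ N + 1 := by
  classical
  have hz : AlgebraicIndependent F
      (fun u : K → Bool => aeval x (aeval (shift (S := F) p u) P)) :=
    hP.map' (f := aeval x) hx
  have hz0 : ∀ u, aeval x (aeval (shift (S := F) p u) P) ≠ 0 := fun u => hz.ne_zero u
  have hQ0 : ∀ u, aeval x (aeval (shift (S := F) p u) Q) ≠ 0 := by
    intro u h
    exact shift_ne_zero p u Q hQ (hx.eq_zero_of_aeval_eq_zero _ h)
  have hinj : Function.Injective (algebraMap L E) := Subtype.val_injective
  have hratio : ∀ u u' : K → Bool, IsAlgebraic L
      (aeval x (aeval (shift (S := F) p u') P) / aeval x (aeval (shift (S := F) p u) P)) := by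
    intro u u'
    set Pi : Polynomial L := aeval (line (S := L) u u') G with hPi
    have h1 : online p x u u' Q * online p x u u' P = Pi.map (algebraMap L E) := by
      have h2 : Pi.map (algebraMap L E) =
          aeval (line (S := E) u u') (map (algebraMap L E) G) := by
        rw [hPi, aeval_def, aeval_def, eval₂_map, ← Polynomial.coe_mapRingHom,
          eval₂_comp_left]
        congr 1
        · ext c
          simp
        · funext l
          simp only [Function.comp, line, Polynomial.coe_mapRingHom, Polynomial.map_add,
            Polynomial.map_mul, Polynomial.map_X, Polynomial.map_C, bit]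
          split_ifs <;> simp
      rw [h2, hG, ← online_gsub, online, online, online, ← map_mul]
    have e0 : ∀ R : MvPolynomial V F, (online p x u u' R).eval (algebraMap L E 0) =
        aeval x (aeval (shift (S := F) p u) R) := by
      intro R
      rw [map_zero]
      exact online_eval p x u u' R 0 u (line_zero u u')
    have e1 : ∀ R : MvPolynomial V F, (online p x u u' R).eval (algebraMap L E 1) =
        aeval x (aeval (shift (S := F) p u') R) := by
      intro R
      rw [map_one]
      exact online_eval p x u u' R 1 u' (line_one u u')
    have hPi0 : Pi ≠ 0 := by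
      intro h0
      have h3 : (online p x u u' Q * online p x u u' P).eval (algebraMap L E 0) ≠ 0 := by
        rw [Polynomial.eval_mul, e0, e0]
        exact mul_ne_zero (hQ0 u) (hz0 u)
      apply h3
      rw [h1, h0]
      simp
    have h4 := ratio_algebraic hinj Pi _ _ h1 1 0 hPi0 (by rw [e0]; exact hz0 u)
    rw [e0, e1] at h4
    exact h4
  -- all values lie in the closure of `s` and one value
  let u0 : K → Bool := fun _ => false
  have hcl : ∀ u, aeval x (aeval (shift (S := F) p u) P) ∈
      (AlgebraicIndependent.matroid F E).closure
        (insert (aeval x (aeval (shift (S := F) p u0) P)) s) := by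
    intro u
    rw [mem_closure_iff]
    have hle : L ≤ Algebra.adjoin F (insert (aeval x (aeval (shift (S := F) p u0) P)) s) := by
      rw [hL]
      exact Algebra.adjoin_mono (Set.subset_insert _ _)
    have h5 : IsAlgebraic (Algebra.adjoin F (insert (aeval x (aeval (shift (S := F) p u0) P)) s))
        (aeval x (aeval (shift (S := F) p u) P) / aeval x (aeval (shift (S := F) p u0) P)) := by
      obtain ⟨q, hq0, hq⟩ := hratio u0 u
      refine ⟨q.map (Subalgebra.inclusion hle).toRingHom, ?_, ?_⟩
      · rw [Ne, Polynomial.map_eq_zero_iff (Subalgebra.inclusion_injective hle)]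
        exact hq0
      · rw [Polynomial.aeval_def, Polynomial.eval₂_map]
        exact hq
    have h6 : IsAlgebraic (Algebra.adjoin F (insert (aeval x (aeval (shift (S := F) p u0) P)) s))
        (aeval x (aeval (shift (S := F) p u0) P)) :=
      isAlgebraic_algebraMap (⟨aeval x (aeval (shift (S := F) p u0) P),
        Algebra.subset_adjoin (Set.mem_insert _ _)⟩ :
          Algebra.adjoin F (insert (aeval x (aeval (shift (S := F) p u0) P)) s))
    have h7 := h5.mul h6
    rwa [div_mul_cancel₀ _ (hz0 u0)] at h7
  have h8 := card_le_of_closure _ hz _ (N + 1) (by
    refine (Set.encard_insert_le _ _).trans ?_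
    push_cast
    exact add_le_add_left hs 1) hcl
  rwa [Fintype.card_fun, Fintype.card_bool] at h8

end

end Pool.Agent.V7H63.Perm
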