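import Pool.Agent.V7H63.Perm.Place
import Pool.Agent.V7H63.Perm.Generic

/-!
# The values of the permanent at the points of a cube are algebraically independent
-/

set_option autoImplicit false

open MvPolynomial Finset

namespace Pool.Agent.V7H63.Perm

universe u v w

section blocks

/-- the block of the variables at given positions -/
noncomputable def blk {V K : Type} (pos : K → V) : V → Option K :=
  open Classical in fun v => if h : ∃ l, pos l = v then some h.choose else none

lemma blk_pos {V K : Type} (pos : K → V) (hp : Function.Injective pos) (l : K) :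
    blk pos (pos l) = some l := by
  have h : ∃ l', pos l' = pos l := ⟨l, rfl⟩
  rw [blk, dif_pos h, hp h.choose_spec]

lemma blk_none {V K : Type} (pos : K → V) (v : V) (h : ¬ ∃ l, pos l = v) : blk pos v = none := by
  rw [blk, dif_neg h]

lemma blk_isSome {V K : Type} (pos : K → V) (v : V) (h : (blk pos v).isSome) :
    ∃ l, pos l = v := by
  by_contra h'
  rw [blk_none pos v h'] at h
  simp at h

end blocks

/-- the generic permanent -/
noncomputable def permX (n : ℕ) (S : Type u) [CommRing S] : MvPolynomial (Fin n × Fin n) S :=
  (Matrix.of fun i j : Fin n => (X (i, j) : MvPolynomial (Fin n × Fin n) S)).permanent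

lemma aeval_permX {n : ℕ} {S : Type u} [CommRing S] {T : Type v} [CommRing T] [Algebra S T]
    (a : Fin n × Fin n → T) : aeval a (permX n S) = per (fun i j => a (j, i)) := by
  rw [permX, Matrix.permanent, per, map_sum]
  apply Finset.sum_congr rfl
  intro σ _
  rw [map_prod]
  apply Finset.prod_congr rfl
  intro i _
  rw [Matrix.of_apply, aeval_X]

lemma map_permX {n : ℕ} {S : Type u} [CommRing S] {T : Type v} [CommRing T] (φ : S →+* T) :
    map φ (permX n S) = permX n T := by
  rw [permX, permX, Matrix.permanent, Matrix.permanent, map_sum]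
  apply Finset.sum_congr rfl
  intro σ _
  rw [map_prod]
  apply Finset.prod_congr rfl
  intro i _
  rw [Matrix.of_apply, Matrix.of_apply, map_X]

lemma ma_values {S : Type u} [CommRing S] {K : Type} [Fintype K] [DecidableEq K]
    (h : (K → Bool) → S) (w : K → Bool) :
    ma (fun t => ∑ u, h u * ∏ l, (if u l then (if t l then 1 else 0) else
      (if t l then -1 else 1))) (fun l => bit (w l)) = h w := by
  have h1 : ∀ u : K → Bool, ∑ t : K → Bool, (∏ l, (if u l then (if t l then (1 : S) else 0) else
      (if t l then -1 else 1))) * ∏ l, (if t l then bit (w l) else 1) =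
      if u = w then 1 else 0 := by
    intro u
    have h2 : ∏ l, (if u l = w l then (1 : S) else 0) = if u = w then 1 else 0 := by
      by_cases huw : u = w
      · subst huw
        simp
      · rw [if_neg huw]
        obtain ⟨l, hl⟩ := Function.ne_iff.1 huw
        exact Finset.prod_eq_zero (Finset.mem_univ l) (if_neg hl)
    rw [← h2]
    have h3 : ∀ l, (if u l = w l then (1 : S) else 0) =
        ∑ b : Bool, (if u l then (if b then (1 : S) else 0) else (if b then -1 else 1)) *
          (if b then bit (w l) else 1) := by
      intro l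
      rw [Fintype.sum_bool]
      cases u l <;> cases w l <;> simp [bit]
    simp_rw [h3]
    rw [Finset.prod_univ_sum, Fintype.piFinset_univ]
    apply Finset.sum_congr rfl
    intro t _
    rw [Finset.prod_mul_distrib]
  rw [ma]
  simp_rw [Finset.sum_mul]
  rw [Finset.sum_comm]
  have h4 : ∀ u : K → Bool, ∑ t : K → Bool, h u * (∏ l, (if u l then (if t l then (1 : S) else 0)
      else (if t l then -1 else 1))) * ∏ l, (if t l then bit (w l) else 1) =
      h u * if u = w then 1 else 0 := by
    intro u
    rw [← h1 u, Finset.mul_sum]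
    apply Finset.sum_congr rfl
    intro t _
    ring
  rw [Finset.sum_congr rfl (fun u _ => h4 u)]
  simp

/-- all families of values at the points of a cube are possible for the permanent -/
lemma perm_values {n : ℕ} {k : Type u} [Field k] (h2 : (2 : k) ≠ 0) (κ : ℕ)
    (hn : 6 * 2 ^ κ + 2 * κ ≤ n + 5)
    (pos : Fin (2 * κ) → Fin n × Fin n) (h1 : Function.Injective fun l => (pos l).1)
    (h3 : Function.Injective fun l => (pos l).2) (h : (Fin (2 * κ) → Bool) → k) :
    ∃ a : Fin n × Fin n → k, ∀ u : Fin (2 * κ) → Bool,
      aeval (fun v => a v + (blk pos v).elim 0 (fun l => bit (u l))) (permX n k) = h u := by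
  obtain ⟨B, hB, hper⟩ := universal h2 κ (K := Fin (2 * κ)) (R := Fin n) (C' := Fin n)
    (by simp) (by simpa using hn) rfl (fun l => (pos l).2) (fun l => (pos l).1) h3 h1
    (fun t => ∑ u, h u * ∏ l, (if u l then (if t l then 1 else 0) else
      (if t l then -1 else 1)))
  refine ⟨fun v => B v.2 v.1, ?_⟩
  intro u
  have h4 := hper k (fun l => bit (u l))
  simp only [Algebra.algebraMap_self, RingHom.id_apply] at h4
  rw [ma_values h u] at h4
  rw [← h4, aeval_permX]
  congr 1
  funext i j
  congr 1
  by_cases h : ∃ l, pos l = (j, i)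
  · obtain ⟨l, hl⟩ := h
    have hinj : Function.Injective pos := by
      intro a b hab
      apply h1
      show (pos a).1 = (pos b).1
      rw [hab]
    have e1 : (pos l).1 = j := by rw [hl]
    have e2 : (pos l).2 = i := by rw [hl]
    rw [← hl, blk_pos pos hinj, ← e1, ← e2, Finset.sum_eq_single l]
    · simp
    · intro l' _ hl'
      rw [if_neg]
      intro h5
      exact hl' (h3 h5.1)
    · intro h5
      exact absurd (Finset.mem_univ _) h5
  · rw [blk_none _ _ h, Finset.sum_eq_zero]
    · rfl
    · intro l _
      rw [if_neg]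
      intro h5
      apply h
      refine ⟨l, ?_⟩
      rw [Prod.ext_iff]
      exact ⟨h5.2, h5.1⟩

/-- naturality -/
lemma map_aeval_nat {R : Type u} {S : Type v} [CommRing R] [CommRing S] {ι V : Type}
    (φ : R →+* S) (z : ι → MvPolynomial V R) (q : MvPolynomial ι R) :
    map φ (aeval z q) = aeval (fun i => map φ (z i)) (map φ q) := by
  induction q using MvPolynomial.induction_on with
  | C a => simp [algebraMap_eq]
  | add p q hp hq => rw [map_add, map_add, map_add, map_add, hp, hq]
  | mul_X p i hp => rw [map_mul, map_mul, map_mul, map_mul, hp, aeval_X, map_X, aeval_X]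

lemma map_shift {R : Type u} {S : Type v} [CommRing R] [CommRing S] {K V : Type}
    (φ : R →+* S) (p : V → Option K) (b : K → Bool) (v : V) :
    map φ (shift (S := R) p b v) = shift (S := S) p b v := by
  rw [shift, shift, map_add, map_X]
  rcases p v with _ | l
  · simp
  · simp only [Option.elim_some, bit]
    split_ifs <;> simp

lemma map_aeval_shift {R : Type u} {S : Type v} [CommRing R] [CommRing S] {K V : Type}
    (φ : R →+* S) (p : V → Option K) (b : K → Bool) (P : MvPolynomial V R) :
    map φ (aeval (shift (S := R) p b) P) = aeval (shift (S := S) p b) (map φ P) := by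
  rw [map_aeval_nat]
  congr 2
  funext v
  exact map_shift φ p b v

/-- the values of the permanent at the points of a cube are algebraically independent -/
lemma perm_indep {n : ℕ} {k : Type u} [Field k] (h2 : (2 : k) ≠ 0) (κ : ℕ)
    (hn : 6 * 2 ^ κ + 2 * κ ≤ n + 5)
    (pos : Fin (2 * κ) → Fin n × Fin n) (h1 : Function.Injective fun l => (pos l).1)
    (h3 : Function.Injective fun l => (pos l).2) :
    AlgebraicIndependent k
      (fun b : Fin (2 * κ) → Bool => aeval (shift (S := k) (blk pos) b) (permX n k)) := by
  rw [algebraicIndependent_iff]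
  intro q hq
  have hinj : Function.Injective (algebraMap k (AlgebraicClosure k)) :=
    (algebraMap k (AlgebraicClosure k)).injective
  have h2' : (2 : AlgebraicClosure k) ≠ 0 := by
    intro h
    apply h2
    apply hinj
    rw [map_ofNat, map_zero, h]
  apply map_injective _ hinj
  rw [map_zero]
  apply MvPolynomial.funext
  intro h
  rw [map_zero]
  obtain ⟨a, ha⟩ := perm_values h2' κ hn pos h1 h3 h
  have h4 := congrArg (map (algebraMap k (AlgebraicClosure k))) hq
  rw [map_aeval_nat, map_zero] at h4
  have h5 := congrArg (aeval a) h4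
  rw [map_zero, ← AlgHom.comp_apply, comp_aeval] at h5
  rw [← h5, ← coe_aeval_eq_eval]
  have h6 : (fun i : Fin (2 * κ) → Bool => (aeval a) ((map (algebraMap k (AlgebraicClosure k)))
      ((aeval (shift (S := k) (blk pos) i)) (permX n k)))) = h := by
    funext b
    rw [map_aeval_shift, map_permX, aeval_shift]
    exact ha b
  rw [h6]
  rfl

/-- algebraic independence can be checked over the residue field -/
lemma indep_lift {F : Type u} [Field F] (B : ValuationSubring F) {ι V : Type}
    (z : ι → MvPolynomial V B)
    (h : AlgebraicIndependent (IsLocalRing.ResidueField B)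
      (fun i => map (IsLocalRing.residue B) (z i))) :
    AlgebraicIndependent F (fun i => map (algebraMap B F) (z i)) := by
  rw [algebraicIndependent_iff]
  intro q hq
  by_contra hq0
  obtain ⟨m, hm, hmax⟩ := Finset.exists_max_image q.support
    (fun m => B.valuation (coeff m q)) (support_nonempty.2 hq0)
  have hc : coeff m q ≠ 0 := mem_support_iff.1 hm
  have h1 : C (coeff m q)⁻¹ * q ∈ Set.range (map (algebraMap B F)) := by
    rw [MvPolynomial.mem_range_map_iff_coeffs_subset]
    intro c hc'
    rw [Finset.mem_coe, mem_coeffs_iff] at hc'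
    obtain ⟨d, hd, rfl⟩ := hc'
    rw [coeff_C_mul]
    have h2 : (coeff m q)⁻¹ * coeff d q ∈ B := by
      rw [← ValuationSubring.valuation_le_one_iff, map_mul, map_inv₀]
      by_cases hd0 : coeff d q = 0
      · rw [hd0]
        simp
      · have h3 := hmax d (mem_support_iff.2 hd0)
        rw [mul_comm]
        exact mul_inv_le_one_of_le₀ h3 zero_le'
    exact ⟨⟨_, h2⟩, rfl⟩
  obtain ⟨q', hq'⟩ := h1
  have hinj : Function.Injective (algebraMap B F) := Subtype.val_injective
  have h2 : coeff m q' = 1 := by
    apply hinj
    rw [← coeff_map, hq', coeff_C_mul, inv_mul_cancel₀ hc, map_one]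
  have h3 : aeval z q' = 0 := by
    apply map_injective _ hinj
    rw [map_aeval_nat, hq', map_mul, hq, mul_zero, map_zero]
  have h4 : aeval (fun i => map (IsLocalRing.residue B) (z i))
      (map (IsLocalRing.residue B) q') = 0 := by
    rw [← map_aeval_nat, h3, map_zero]
  have h5 := (algebraicIndependent_iff.1 h) _ h4
  have h6 := congrArg (coeff m) h5
  rw [coeff_map, h2, map_one, coeff_zero] at h6
  exact one_ne_zero h6

/-- **Algebraic independence for lifts of the permanent.** -/
theorem lift_indep {n : ℕ} {A : Type v} [CommRing A] [IsDomain A] {F : Type u} [Field F]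
    [Algebra A F] [IsFractionRing A F] {k : Type w} [Field k] (φ : A →+* k)
    (h2 : (2 : k) ≠ 0) (κ : ℕ) (hn : 6 * 2 ^ κ + 2 * κ ≤ n + 5)
    (pos : Fin (2 * κ) → Fin n × Fin n) (h1 : Function.Injective fun l => (pos l).1)
    (h3 : Function.Injective fun l => (pos l).2) (P : MvPolynomial (Fin n × Fin n) A)
    (hP : map φ P = permX n k) :
    AlgebraicIndependent F (fun b : Fin (2 * κ) → Bool =>
      aeval (shift (S := F) (blk pos) b) (map (algebraMap A F) P)) := by
  have hprime : (RingHom.ker φ).IsPrime := RingHom.ker_isPrime φ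
  let Rp := Localization.AtPrime (RingHom.ker φ)
  have hunit : ∀ y : (RingHom.ker φ).primeCompl, IsUnit (algebraMap A F y) := by
    intro y
    rw [isUnit_iff_ne_zero]
    intro h0
    rw [← map_zero (algebraMap A F)] at h0
    have h4 : (y : A) = 0 := IsFractionRing.injective A F h0
    apply y.2
    rw [h4]
    exact Ideal.zero_mem _
  let f : Rp →+* F := IsLocalization.lift (M := (RingHom.ker φ).primeCompl)
    (g := algebraMap A F) hunit
  have hf : ∀ a : A, f (algebraMap A Rp a) = algebraMap A F a := fun a =>
    IsLocalization.lift_eq hunit a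
  obtain ⟨B, hB, hloc⟩ := IsLocalRing.exists_factor_valuationRing f
  let g : Rp →+* B := f.codRestrict B.toSubring hB
  have hg : ∀ r, algebraMap B F (g r) = f r := fun r => rfl
  have hgloc : IsLocalHom g := hloc
  let ψ : A →+* B := g.comp (algebraMap A Rp)
  have hψ : (algebraMap B F).comp ψ = algebraMap A F := by
    ext a
    show algebraMap B F (g (algebraMap A Rp a)) = algebraMap A F a
    rw [hg, hf]
  have hker : ∀ a : A, φ a = 0 → IsLocalRing.residue B (ψ a) = 0 := by
    intro a ha
    rw [IsLocalRing.residue_eq_zero_iff, IsLocalRing.mem_maximalIdeal, mem_nonunits_iff]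
    intro hu
    have h5 : IsUnit (algebraMap A Rp a) := (isUnit_map_iff g _).1 hu
    rw [IsLocalization.AtPrime.isUnit_to_map_iff Rp (RingHom.ker φ) a] at h5
    exact h5 ha
  have h2B : (2 : IsLocalRing.ResidueField B) ≠ 0 := by
    have h5 : IsUnit (algebraMap A Rp 2) := by
      rw [IsLocalization.AtPrime.isUnit_to_map_iff Rp (RingHom.ker φ) 2]
      intro h6
      apply h2
      have h7 : φ 2 = 0 := h6
      rwa [map_ofNat] at h7
    have h6 : IsUnit (IsLocalRing.residue B (ψ 2)) := (h5.map g).map (IsLocalRing.residue B)
    rw [map_ofNat, map_ofNat] at h6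
    exact h6.ne_zero
  have hres : map (IsLocalRing.residue B) (map ψ P) = permX n (IsLocalRing.ResidueField B) := by
    rw [← map_permX ((IsLocalRing.residue B).comp ψ), ← sub_eq_zero, MvPolynomial.map_map,
      ← map_sub]
    have h5 : map φ (P - permX n A) = 0 := by
      rw [map_sub, hP, map_permX, sub_self]
    ext m
    rw [coeff_map, coeff_zero]
    apply hker
    rw [← coeff_map, h5, coeff_zero]
  have h5 := perm_indep h2B κ hn pos h1 h3
  rw [← hres] at h5
  simp_rw [← map_aeval_shift] at h5
  have h6 := indep_lift B _ h5
  simp_rw [map_aeval_shift, MvPolynomial.map_map, hψ] at h6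
  exact h6

end Pool.Agent.V7H63.Perm
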