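import Pool.Agent.V7H63.Perm.TwoSided

/-!
# The universality theorem for permanents with prescribed positions of the variables
-/

set_option autoImplicit false

open MvPolynomial Finset

namespace Pool.Agent.V7H63.Perm

universe u

section

variable {S : Type u} [CommRing S]

lemma per_reindex {R C' R' C'' : Type} [Fintype R] [DecidableEq R] [Fintype R'] [DecidableEq R']
    [Fintype C'] [DecidableEq C'] [Fintype C''] [DecidableEq C'']
    (e : R ≃ R') (f : C' ≃ C'') (M : R' → C'' → S) :
    per (fun r c => M (e r) (f c)) = per M := by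
  rw [per, per, ← Equiv.sum_comp (Equiv.equivCongr e f)]
  apply Finset.sum_congr rfl
  intro σ _
  rw [← Equiv.prod_comp e]
  apply Finset.prod_congr rfl
  intro i _
  simp [Equiv.equivCongr]

/-- a matrix, padded by an identity matrix -/
def pad {I J P : Type} [DecidableEq P] (M : I → J → S) : I ⊕ P → J ⊕ P → S
  | Sum.inl i, Sum.inl j => M i j
  | Sum.inr p, Sum.inr p' => if p = p' then 1 else 0
  | Sum.inl _, Sum.inr _ => 0
  | Sum.inr _, Sum.inl _ => 0

lemma per_pad {I J P : Type} [Fintype I] [DecidableEq I] [Fintype J] [DecidableEq J]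
    [Fintype P] [DecidableEq P] (M : I → J → S) :
    per (pad (P := P) M) = per M := by
  rw [per, ← top_prod_linear, top_sum, map_prod, Fintype.prod_sum_type]
  have h1 : ∀ i : I, sumAlgEquiv S J P (∑ j, C (pad (P := P) M (Sum.inl i) j) * X j) =
      ∑ j, C (C (M i j)) * X j := by
    intro i
    rw [Fintype.sum_sum_type]
    simp only [map_add, map_sum, map_mul, sumAlgEquiv_C_inl, sumAlgEquiv_X_inl,
      sumAlgEquiv_X_inr, pad, map_zero, zero_mul, Finset.sum_const_zero, add_zero]
  have h2 : ∀ p : P, sumAlgEquiv S J P (∑ j, C (pad (P := P) M (Sum.inr p) j) * X j) =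
      C (X p) := by
    intro p
    rw [Fintype.sum_sum_type]
    simp only [map_add, map_sum, map_mul, sumAlgEquiv_C_inl, sumAlgEquiv_X_inl,
      sumAlgEquiv_X_inr, pad, map_zero, zero_mul, Finset.sum_const_zero, zero_add]
    rw [Finset.sum_eq_single p]
    · simp
    · intro p' _ hp'
      simp [hp'.symm]
    · intro h
      exact absurd (Finset.mem_univ _) h
  simp only [h1, h2]
  rw [← map_prod, top_mul_C, top_prod_linear]
  have h3 : (∑ e : I ≃ J, ∏ i, (C (M i (e i)) : MvPolynomial P S)) * ∏ p, X p =
      C (per M) * ∏ p, X p := by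
    rw [per, map_sum]
    simp only [map_prod]
  rw [h3, top_C_mul]
  have h4 := top_prod_opt (S := S) (I := P) (J := P) (fun p => some p)
  simp only [Option.elim_some, Option.some.injEq] at h4
  rw [h4, if_pos, mul_one]
  intro j
  simp [Finset.filter_eq']

end

lemma exists_equiv_of_inj {K α β : Type} [Fintype α] [Fintype β]
    (p : K → α) (q : K → β) (hp : Function.Injective p) (hq : Function.Injective q)
    (hc : Fintype.card α = Fintype.card β) : ∃ e : α ≃ β, ∀ l, e (p l) = q l := by
  classical
  let e0 : α ≃ β := Fintype.equivOfCardEq hc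
  let e1 : {a // a ∈ Set.range p} ≃ {b // b ∈ Set.range (fun l => e0.symm (q l))} :=
    (Equiv.ofInjective p hp).symm.trans
      (Equiv.ofInjective (fun l => e0.symm (q l)) (e0.symm.injective.comp hq))
  refine ⟨(Equiv.extendSubtype e1).trans e0, ?_⟩
  intro l
  rw [Equiv.trans_apply, Equiv.extendSubtype_apply_of_mem e1 (p l) ⟨l, rfl⟩]
  have h1 : (Equiv.ofInjective p hp).symm ⟨p l, ⟨l, rfl⟩⟩ = l := by
    rw [Equiv.symm_apply_eq]
    rfl
  simp only [e1, Equiv.trans_apply, h1, Equiv.ofInjective_apply, Equiv.apply_symm_apply]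

section

variable {L I J : Type} [Fintype L] [DecidableEq L] [Fintype I] [DecidableEq I]
  [Fintype J] [DecidableEq J] {F : Type u} [CommRing F] {S : Type u} [CommRing S] [Algebra F S]

/-- the constant part of the matrix `tm` -/
def tc (A : I → J → ℤ) (out : I → (L → Bool) → ℤ)
    (z : (L → Bool) → (L → Bool) → F) : I ⊕ J → J ⊕ I → F
  | Sum.inl i, Sum.inl j => A i j
  | Sum.inl i, Sum.inr i' => ∑ b, (out i b : F) * ∑ b', (out i' b' : F) * z b b'
  | Sum.inr _, Sum.inl _ => 0
  | Sum.inr j, Sum.inr i' => A i' j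

/-- rows of the special positions -/
def sr (rs : L → I) (cs : L → J) : L ⊕ L → I ⊕ J
  | Sum.inl l => Sum.inl (rs l)
  | Sum.inr l => Sum.inr (cs l)

lemma sr_inj (rs : L → I) (cs : L → J) (h1 : Function.Injective rs)
    (h2 : Function.Injective cs) : Function.Injective (sr rs cs) := by
  rintro (a | a) (b | b) hab
  · rw [h1 (Sum.inl.inj hab)]
  · exact absurd hab (by simp [sr])
  · exact absurd hab (by simp [sr])
  · rw [h2 (Sum.inr.inj hab)]

lemma tm_eq (A : I → J → ℤ) (out : I → (L → Bool) → ℤ) (rs : L → I) (cs : L → J)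
    (y : L ⊕ L → S) (z : (L → Bool) → (L → Bool) → F) (r : I ⊕ J) (c : J ⊕ I) :
    tm A out rs cs (fun l => y (Sum.inl l)) (fun l => y (Sum.inr l))
      (fun b b' => algebraMap F S (z b b')) r c =
      algebraMap F S (tc A out z r c) +
        ∑ l, if sr rs cs l = r ∧ sr cs rs l = c then y l else 0 := by
  rw [Fintype.sum_sum_type]
  rcases r with i | j <;> rcases c with j' | i'
  · simp [tm, tc, sr, ent]
  · simp [tm, tc, sr]
  · simp [tm, tc, sr]
  · simp [tm, tc, sr, ent]
    apply Finset.sum_congr rfl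
    intro l _
    by_cases h : rs l = i' ∧ cs l = j
    · rw [if_pos h, if_pos h.symm]
    · rw [if_neg h, if_neg (fun h' => h h'.symm)]

lemma pad_tm_eq {P : Type} [DecidableEq P] (A : I → J → ℤ) (out : I → (L → Bool) → ℤ)
    (rs : L → I) (cs : L → J)
    (y : L ⊕ L → S) (z : (L → Bool) → (L → Bool) → F) (r : (I ⊕ J) ⊕ P) (c : (J ⊕ I) ⊕ P) :
    pad (tm A out rs cs (fun l => y (Sum.inl l)) (fun l => y (Sum.inr l))
      (fun b b' => algebraMap F S (z b b'))) r c =
      algebraMap F S (pad (tc A out z) r c) +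
        ∑ l, if Sum.inl (sr rs cs l) = r ∧ Sum.inl (sr cs rs l) = c then y l else 0 := by
  rcases r with i | j <;> rcases c with j' | i'
  · simp only [pad, tm_eq, Sum.inl.injEq]
  · simp [pad]
  · simp [pad]
  · simp only [pad, reduceCtorEq, false_and, if_false, Finset.sum_const_zero, add_zero]
    split_ifs <;> simp

end

/-- **Universality.** Every multi-affine polynomial in `2 κ` variables is the permanent of an
`n × n` matrix which has the variables in prescribed positions (in different rows and columns)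
and constants elsewhere, as soon as `n + 5 ≥ 6 * 2 ^ κ + 2 * κ`. -/
theorem universal {F : Type u} [Field F] (h2 : (2 : F) ≠ 0) (κ : ℕ)
    {K R C' : Type} [Fintype K] [DecidableEq K] [Fintype R] [DecidableEq R] [Fintype C']
    [DecidableEq C'] (hK : Fintype.card K = 2 * κ) (hR : 6 * 2 ^ κ + 2 * κ ≤ Fintype.card R + 5)
    (hC : Fintype.card C' = Fintype.card R) (pr : K → R) (pc : K → C')
    (hpr : Function.Injective pr) (hpc : Function.Injective pc) (g : (K → Bool) → F) :
    ∃ B : R → C' → F, (∀ l, B (pr l) (pc l) = 0) ∧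
      ∀ (S : Type u) [CommRing S] [Algebra F S] (y : K → S),
      per (fun r c => algebraMap F S (B r c) + ∑ l, if pr l = r ∧ pc l = c then y l else 0) =
        ma (fun t => algebraMap F S (g t)) y := by
  obtain ⟨L, I, J, i1, i2, i3, i4, i5, i6, A, out, rs, cs, c, h1, h3, h0, h4, h5, h6, h7⟩ :=
    exists_net.{u} κ
  have hcK : Fintype.card K = Fintype.card (L ⊕ L) := by
    rw [hK, Fintype.card_sum, h4]
    ring
  let eK : K ≃ L ⊕ L := Fintype.equivOfCardEq hcK
  let P : Type := Fin (Fintype.card R - (2 * Fintype.card J + 1))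
  have hle : 2 * Fintype.card J + 1 ≤ Fintype.card R := by omega
  have hcR : Fintype.card R = Fintype.card ((I ⊕ J) ⊕ P) := by
    rw [Fintype.card_sum, Fintype.card_sum, Fintype.card_fin]
    omega
  have hcC : Fintype.card C' = Fintype.card ((J ⊕ I) ⊕ P) := by
    rw [Fintype.card_sum, Fintype.card_sum, Fintype.card_fin]
    omega
  have hi1 : Function.Injective (fun l : K => (Sum.inl (sr rs cs (eK l)) : (I ⊕ J) ⊕ P)) :=
    Sum.inl_injective.comp ((sr_inj rs cs h1 h3).comp eK.injective)
  have hi2 : Function.Injective (fun l : K => (Sum.inl (sr cs rs (eK l)) : (J ⊕ I) ⊕ P)) :=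
    Sum.inl_injective.comp ((sr_inj cs rs h3 h1).comp eK.injective)
  obtain ⟨e, he⟩ := exists_equiv_of_inj pr _ hpr hi1 hcR
  obtain ⟨f, hf⟩ := exists_equiv_of_inj pc _ hpc hi2 hcC
  -- the numbers in the middle
  let a : F := 2⁻¹
  have ha : a * 2 = 1 := inv_mul_cancel₀ h2
  let z : (L → Bool) → (L → Bool) → F := fun b b' =>
    (((-2) ^ c * (-2) ^ c)⁻¹) * ∑ t : K → Bool, g t * ∏ l, a *
      (if t l then sg (Sum.elim b b' (eK l)) else 1)
  refine ⟨fun r c' => pad (tc A out z) (e r) (f c'), ?_, ?_⟩
  · intro l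
    show pad (tc A out z) (e (pr l)) (f (pc l)) = 0
    rw [he, hf]
    rcases eK l with l' | l'
    · simp [pad, sr, tc, h0]
    · simp [pad, sr, tc, h0]
  · intro S _ _ y
    have hentry : (fun r c' => algebraMap F S (pad (tc A out z) (e r) (f c')) +
        ∑ l, if pr l = r ∧ pc l = c' then y l else 0) =
        (fun r c' => pad (P := P) (tm A out rs cs (fun l => y (eK.symm (Sum.inl l)))
          (fun l => y (eK.symm (Sum.inr l)))
          (fun b b' => algebraMap F S (z b b'))) (e r) (f c')) := by
      funext r c'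
      have h8 := pad_tm_eq A out rs cs (fun l => y (eK.symm l)) z (e r) (f c')
      rw [h8]
      congr 1
      rw [← Equiv.sum_comp eK]
      apply Finset.sum_congr rfl
      intro l _
      rw [← he, ← hf, Equiv.symm_apply_apply]
      simp only [EmbeddingLike.apply_eq_iff_eq]
    rw [hentry, per_reindex e f (pad _), per_pad, two_sided h7 h5]
    have ha' : algebraMap F S a * 2 = 1 := by
      rw [← map_ofNat (algebraMap F S) 2, ← map_mul, ha, map_one]
    rw [← ma_span (fun t => algebraMap F S (g t)) y (algebraMap F S a) ha']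
    rw [← Fintype.sum_prod_type', Finset.mul_sum]
    rw [← Equiv.sum_comp ((Equiv.sumArrowEquivProdArrow L L Bool).symm.trans
      (Equiv.arrowCongr eK.symm (Equiv.refl Bool)))]
    apply Finset.sum_congr rfl
    rintro ⟨b, b'⟩ _
    have h9 : ((Equiv.sumArrowEquivProdArrow L L Bool).symm.trans
      (Equiv.arrowCongr eK.symm (Equiv.refl Bool))) (b, b') =
        fun l => Sum.elim b b' (eK l) := by
      funext l
      simp [Equiv.arrowCongr, Equiv.sumArrowEquivProdArrow]
    rw [h9]
    have h10 : ∏ l : K, (1 + sg (Sum.elim b b' (eK l)) * y l) =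
        (∏ l, (1 + sg (b l) * y (eK.symm (Sum.inl l)))) *
        (∏ l, (1 + sg (b' l) * y (eK.symm (Sum.inr l)))) := by
      have h15 := Fintype.prod_sum_type
        (fun l : L ⊕ L => 1 + sg (Sum.elim b b' l) * y (eK.symm l))
      rw [← Equiv.prod_comp eK] at h15
      simpa using h15
    rw [h10]
    have hs : ∀ t : Bool, algebraMap F S (sg t) = sg t := by
      intro t
      cases t <;> simp [sg]
    have h11 : algebraMap F S (z b b') * ((-2) ^ c * (-2) ^ c) =
        ∑ t : K → Bool, algebraMap F S (g t) * ∏ l, algebraMap F S a *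
      (if t l then sg (Sum.elim b b' (eK l)) else 1) := by
      have h12 : ((-2) ^ c * (-2) ^ c : S) = algebraMap F S ((-2) ^ c * (-2) ^ c) := by
        rw [map_mul, map_pow, map_neg, map_ofNat]
      rw [h12, ← map_mul]
      have h13 : ((-2) ^ c * (-2) ^ c : F) ≠ 0 := by
        have : (-2 : F) ≠ 0 := neg_ne_zero.2 h2
        exact mul_ne_zero (pow_ne_zero _ this) (pow_ne_zero _ this)
      have h14 : z b b' * ((-2) ^ c * (-2) ^ c) = ∑ t : K → Bool, g t * ∏ l, a *
          (if t l then sg (Sum.elim b b' (eK l)) else 1) := by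
        simp only [z]
        rw [mul_comm, ← mul_assoc, mul_inv_cancel₀ h13, one_mul]
      rw [h14, map_sum]
      apply Finset.sum_congr rfl
      intro t _
      rw [map_mul, map_prod]
      congr 1
      apply Finset.prod_congr rfl
      intro l _
      rw [map_mul, apply_ite (algebraMap F S), map_one, hs]
    rw [← h11]
    ring

end Pool.Agent.V7H63.Perm
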