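import Mathlib

/-!
# Algebraic independence and divisors of polynomials with coefficients in a small ring
-/

set_option autoImplicit false

open Polynomial

namespace Pool.Agent.V7H63.Perm

universe u

/-- The quotient of two values of a divisor of `Pi` is algebraic over the ring of the
coefficients of `Pi`. -/
lemma ratio_algebraic {L E : Type u} [CommRing L] [IsDomain L] [Field E] [Algebra L E]
    (hinj : Function.Injective (algebraMap L E)) (Pi : L[X]) (q s : E[X])
    (h : s * q = Pi.map (algebraMap L E)) (a b : L) (hPi : Pi ≠ 0)
    (hb : q.eval (algebraMap L E b) ≠ 0) :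
    IsAlgebraic L (q.eval (algebraMap L E a) / q.eval (algebraMap L E b)) := by
  have hinj2 : Function.Injective (algebraMap E (AlgebraicClosure E)) :=
    (algebraMap E (AlgebraicClosure E)).injective
  rw [← isAlgebraic_algebraMap_iff (A := AlgebraicClosure E) hinj2]
  set q' := q.map (algebraMap E (AlgebraicClosure E)) with hq'
  have hs : q'.Splits := IsAlgClosed.splits q'
  have hev : ∀ c : L, algebraMap E (AlgebraicClosure E) (q.eval (algebraMap L E c)) =
      q'.eval (algebraMap L (AlgebraicClosure E) c) := by
    intro c
    rw [hq', IsScalarTower.algebraMap_apply L E (AlgebraicClosure E), eval_map_apply]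
  rw [map_div₀, hev, hev]
  have hq0 : q ≠ 0 := by
    rintro rfl
    simp at hb
  have hq0' : q' ≠ 0 := by
    rw [hq', Polynomial.map_ne_zero_iff hinj2]
    exact hq0
  have hlc : q'.leadingCoeff ≠ 0 := leadingCoeff_ne_zero.2 hq0'
  have hroots : ∀ r ∈ q'.roots, IsAlgebraic L r := by
    intro r hr
    refine ⟨Pi, hPi, ?_⟩
    have h1 : q'.eval r = 0 := (mem_roots'.1 hr).2
    have h2 : (Pi.map (algebraMap L (AlgebraicClosure E))).eval r = 0 := by
      rw [IsScalarTower.algebraMap_eq L E (AlgebraicClosure E), ← Polynomial.map_map, ← h,
        Polynomial.map_mul, eval_mul, ← hq', h1, mul_zero]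
    rw [← eval_map_algebraMap]
    exact h2
  have hprod : ∀ c : L, IsAlgebraic L
      (q'.roots.map fun r => algebraMap L (AlgebraicClosure E) c - r).prod := by
    intro c
    have : ∀ t ∈ q'.roots.map (fun r => algebraMap L (AlgebraicClosure E) c - r),
        t ∈ Subalgebra.algebraicClosure L (AlgebraicClosure E) := by
      intro t ht
      rw [Multiset.mem_map] at ht
      obtain ⟨r, hr, rfl⟩ := ht
      rw [Subalgebra.mem_algebraicClosure]
      exact (isAlgebraic_algebraMap c).sub (hroots r hr)
    exact (Subalgebra.mem_algebraicClosure _ _).1 (Subalgebra.multiset_prod_mem _ this)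
  rw [hs.eval_eq_prod_roots, hs.eval_eq_prod_roots, mul_div_mul_left _ _ hlc]
  rw [div_eq_mul_inv]
  exact (hprod a).mul (hprod b).inv

/-- The number of algebraically independent elements in the closure of a set. -/
lemma card_le_of_closure {F E : Type u} [Field F] [Field E] [Algebra F E] {ι : Type}
    [Fintype ι] (x : ι → E) (hx : AlgebraicIndependent F x) (s : Set E) (N : ℕ)
    (hs : s.encard ≤ N)
    (h : ∀ i, x i ∈ (AlgebraicIndependent.matroid F E).closure s) : Fintype.card ι ≤ N := by
  have h1 : (AlgebraicIndependent.matroid F E).Indep (Set.range x) := by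
    rw [AlgebraicIndependent.matroid_indep_iff]
    exact hx.to_subtype_range
  have h2 : (Set.range x).encard ≤ N := by
    rw [← h1.eRk_eq_encard]
    calc (AlgebraicIndependent.matroid F E).eRk (Set.range x)
        ≤ (AlgebraicIndependent.matroid F E).eRk
          ((AlgebraicIndependent.matroid F E).closure s) := by
          apply Matroid.eRk_mono
          rintro _ ⟨i, rfl⟩
          exact h i
      _ = (AlgebraicIndependent.matroid F E).eRk s := Matroid.eRk_closure_eq _ _
      _ ≤ s.encard := Matroid.eRk_le_encard _ _
      _ ≤ N := hs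
  have h3 : (Set.range x).encard = Fintype.card ι := by
    rw [← Set.image_univ, hx.injective.encard_image, Set.encard_univ]
    simp
  rw [h3] at h2
  exact_mod_cast h2

lemma mem_closure_iff {F E : Type u} [Field F] [Field E] [Algebra F E] (s : Set E) (a : E) :
    a ∈ (AlgebraicIndependent.matroid F E).closure s ↔
      IsAlgebraic (Algebra.adjoin F s) a := by
  rw [AlgebraicIndependent.matroid_closure_eq]
  exact Subalgebra.mem_algebraicClosure _ _

end Pool.Agent.V7H63.Perm
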