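import Pool.Agent.V7H63.Perm.FormulaGen

/-!
# The blocks of the matrix and the lower bound for formulas
-/

set_option autoImplicit false

open MvPolynomial Finset

namespace Pool.Agent.V7H63.Perm

universe u v w

section

/-- the positions of the variables of a block -/
def bpos (n k : ℕ) (d : Fin n) (s : Fin (n / k)) (l : Fin k) : Fin n × Fin n :=
  have h : s.1 * k + l.1 < n := by
    have h1 : (s.1 + 1) * k ≤ n / k * k := Nat.mul_le_mul_right k s.2
    have h2 : n / k * k ≤ n := Nat.div_mul_le_self n k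
    have h3 : (s.1 + 1) * k = s.1 * k + k := by ring
    have h4 := l.2
    omega
  (⟨s.1 * k + l.1, h⟩, ⟨s.1 * k + l.1, h⟩ + d)

lemma bpos_fst_inj (n k : ℕ) (d : Fin n) (s : Fin (n / k)) :
    Function.Injective fun l => (bpos n k d s l).1 := by
  intro l l' h
  have h1 := congrArg Fin.val h
  simp only [bpos] at h1
  exact Fin.ext (by omega)

lemma bpos_snd_inj (n k : ℕ) (d : Fin n) (s : Fin (n / k)) :
    Function.Injective fun l => (bpos n k d s l).2 := by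
  have : NeZero n := ⟨by have := d.2; omega⟩
  intro l l' h
  apply bpos_fst_inj n k d s
  simp only [bpos] at h ⊢
  exact add_right_cancel h

lemma bpos_disj (n k : ℕ) (d d' : Fin n) (s s' : Fin (n / k)) (l l' : Fin k)
    (h : bpos n k d s l = bpos n k d' s' l') : (d, s) = (d', s') := by
  have : NeZero n := ⟨by have := d.2; omega⟩
  have h0 := Prod.ext_iff.1 h
  have h1 : s.1 * k + l.1 = s'.1 * k + l'.1 := congrArg Fin.val h0.1
  have hk : 0 < k := lt_of_le_of_lt (Nat.zero_le _) l.2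
  have h2 : s.1 = s'.1 := by
    have e1 : (s.1 * k + l.1) / k = s.1 := by
      rw [mul_comm, Nat.mul_add_div hk, Nat.div_eq_of_lt l.2, add_zero]
    have e2 : (s'.1 * k + l'.1) / k = s'.1 := by
      rw [mul_comm, Nat.mul_add_div hk, Nat.div_eq_of_lt l'.2, add_zero]
    rw [← e1, h1, e2]
  have h3 : (bpos n k d s l).1 + d = (bpos n k d' s' l').1 + d' := h0.2
  rw [h0.1] at h3
  have h4 := add_left_cancel h3
  rw [h4, Fin.ext h2]


/-- the blocks are disjoint -/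
lemma blk_disj (n k : ℕ) (v : Fin n × Fin n) (i j : Fin n × Fin (n / k))
    (hi : (blk (bpos n k i.1 i.2) v).isSome) (hj : (blk (bpos n k j.1 j.2) v).isSome) :
    i = j := by
  obtain ⟨l, hl⟩ := blk_isSome _ _ hi
  obtain ⟨l', hl'⟩ := blk_isSome _ _ hj
  exact bpos_disj n k _ _ _ _ l l' (hl.trans hl'.symm)

/-- **The lower bound for formulas**, general form. -/
theorem gformula_bound {n : ℕ} {A : Type v} [CommRing A] [IsDomain A] {F : Type u} [Field F]
    [Algebra A F] [IsFractionRing A F] {k : Type w} [Field k] (φ : A →+* k)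
    (h2 : (2 : k) ≠ 0) (κ : ℕ) (hκ : 1 ≤ κ) (hn : 6 * 2 ^ κ + 2 * κ ≤ n + 5)
    (P : MvPolynomial (Fin n × Fin n) A) (hP : map φ P = permX n k)
    (Q : MvPolynomial (Fin n × Fin n) F) (hQ : Q ≠ 0) (f : Formula (Fin n × Fin n) F)
    (hf : f.eval = Q * map (algebraMap A F) P) :
    n * (n / (2 * κ)) * 4 ^ κ ≤ 4 * f.leaves := by
  have h1 := Formula.sum_cnt_le (ι := Fin n × Fin (n / (2 * κ)))
    (fun i => blk (bpos n (2 * κ) i.1 i.2)) (blk_disj n (2 * κ)) f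
  have h3 : ∀ i : Fin n × Fin (n / (2 * κ)),
      4 ^ κ ≤ 4 * f.cnt (blk (bpos n (2 * κ) i.1 i.2)) := by
    intro i
    have h4 := gblock_bound (by rw [Fintype.card_fin]; omega) (blk (bpos n (2 * κ) i.1 i.2)) f
      (map (algebraMap A F) P) Q hQ
      (lift_indep φ h2 κ hn _ (bpos_fst_inj _ _ _ _) (bpos_snd_inj _ _ _ _) P hP) hf
    rw [Fintype.card_fin, pow_mul] at h4
    norm_num at h4 ⊢
    omega
  calc n * (n / (2 * κ)) * 4 ^ κ
      = ∑ _i : Fin n × Fin (n / (2 * κ)), 4 ^ κ := by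
        rw [Finset.sum_const, Finset.card_univ, Fintype.card_prod, Fintype.card_fin,
          Fintype.card_fin, smul_eq_mul]
    _ ≤ ∑ i : Fin n × Fin (n / (2 * κ)), 4 * f.cnt (blk (bpos n (2 * κ) i.1 i.2)) :=
        Finset.sum_le_sum fun i _ => h3 i
    _ = 4 * ∑ i : Fin n × Fin (n / (2 * κ)), f.cnt (blk (bpos n (2 * κ) i.1 i.2)) := by
        rw [Finset.mul_sum]
    _ ≤ 4 * f.leaves := Nat.mul_le_mul_left 4 h1

lemma arith (n κ L : ℕ) (hκ : 1 ≤ κ) (h1 : 8 * 2 ^ κ ≤ n) (h2 : n < 16 * 2 ^ κ)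
    (h : n * (n / (2 * κ)) * (4 ^ κ) ≤ 4 * L) : n ^ 4 ≤ 2304 * κ * L := by
  have h3 : 2 * κ ≤ 2 ^ κ := by
    obtain ⟨j, rfl⟩ : ∃ j, κ = j + 1 := ⟨κ - 1, by omega⟩
    have := Nat.lt_two_pow_self (n := j)
    rw [pow_succ]
    omega
  set q := n / (2 * κ) with hq
  have h4 : 8 ≤ q := by
    rw [hq, Nat.le_div_iff_mul_le (by omega)]
    omega
  have h5 : n < 2 * κ * (q + 1) := by
    have := Nat.lt_mul_div_succ n (b := 2 * κ) (by omega)
    exact this
  have h6 : 8 * n ≤ 18 * κ * q := by nlinarith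
  have h7 : n ^ 2 ≤ 256 * 4 ^ κ := by
    have : n ^ 2 ≤ (16 * 2 ^ κ) ^ 2 := Nat.pow_le_pow_left h2.le 2
    have e : (16 * 2 ^ κ) ^ 2 = 256 * 4 ^ κ := by
      rw [mul_pow, ← pow_mul, mul_comm κ 2, pow_mul]
      norm_num
    omega
  have h8 : 8 * n ^ 4 ≤ n * (18 * κ * q) * (256 * 4 ^ κ) := by
    calc 8 * n ^ 4 = n * (8 * n) * n ^ 2 := by ring
      _ ≤ n * (18 * κ * q) * (256 * 4 ^ κ) :=
        Nat.mul_le_mul (Nat.mul_le_mul_left n h6) h7
  have h9 : n * (18 * κ * q) * (256 * 4 ^ κ) ≤ 4608 * κ * (n * q * (4 ^ κ)) := by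
    have : n * (18 * κ * q) * (256 * 4 ^ κ) = 4608 * κ * (n * q * 4 ^ κ) := by ring
    rw [this]
  have h10 : 4608 * κ * (n * q * (4 ^ κ)) ≤ 4608 * κ * (4 * L) := Nat.mul_le_mul_left _ h
  have h11 : 4608 * κ * (4 * L) = 8 * (2304 * κ * L) := by ring
  omega

/-- a good size for the blocks -/
lemma exists_kappa (n : ℕ) (hn : 16 ≤ n) : ∃ κ, 1 ≤ κ ∧ κ ≤ Nat.log 2 n ∧ 8 * 2 ^ κ ≤ n ∧
    n < 16 * 2 ^ κ ∧ 6 * 2 ^ κ + 2 * κ ≤ n + 5 := by
  have h0 : 4 ≤ Nat.log 2 n := by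
    rw [Nat.le_log_iff_pow_le (by norm_num) (by omega)]
    omega
  obtain ⟨κ, hκ⟩ : ∃ κ, Nat.log 2 n = κ + 3 := ⟨Nat.log 2 n - 3, by omega⟩
  have h1 : 8 * 2 ^ κ ≤ n := by
    have := Nat.pow_log_le_self 2 (x := n) (by omega)
    rw [hκ, pow_add] at this
    omega
  have h3 : n < 16 * 2 ^ κ := by
    have := Nat.lt_pow_succ_log_self (b := 2) (by norm_num) n
    rw [hκ, Nat.succ_eq_add_one, add_assoc, pow_add] at this
    omega
  have h4 : κ < 2 ^ κ := Nat.lt_two_pow_self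
  exact ⟨κ, by omega, by omega, h1, h3, by omega⟩

/-- the lower bound for formulas -/
theorem gformula_lower_bound {n : ℕ} {A : Type v} [CommRing A] [IsDomain A] {F : Type u}
    [Field F] [Algebra A F] [IsFractionRing A F] {k : Type w} [Field k] (φ : A →+* k)
    (h2 : (2 : k) ≠ 0) (hn : 16 ≤ n)
    (P : MvPolynomial (Fin n × Fin n) A) (hP : map φ P = permX n k)
    (Q : MvPolynomial (Fin n × Fin n) F) (hQ : Q ≠ 0) (f : Formula (Fin n × Fin n) F)
    (hf : f.eval = Q * map (algebraMap A F) P) :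
    n ^ 4 ≤ 2304 * Nat.log 2 n * f.leaves := by
  obtain ⟨κ, hκ, hκ2, h1, h3, h4⟩ := exists_kappa n hn
  have h5 := gformula_bound φ h2 κ hκ h4 P hP Q hQ f hf
  have h6 := arith n κ f.leaves hκ h1 h3 h5
  exact h6.trans (Nat.mul_le_mul_right _ (Nat.mul_le_mul_left _ hκ2))

end

end Pool.Agent.V7H63.Perm
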