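import Pool.Agent.V7H63.Perm.BlocksGen

/-!
# Determinantal representations of multiples of the permanent have large total rank
-/

set_option autoImplicit false

open MvPolynomial Finset

namespace Pool.Agent.V7H63.Perm

universe u v w

section

variable {F E : Type u} [Field F] [Field E] [Algebra F E]

/-- a matrix of rank `r` factors through a space of dimension `r` -/
lemma rank_factor {m : Type} [Fintype m] [DecidableEq m] (M : Matrix m m F) :
    ∃ (U : Matrix m (Fin M.rank) F) (W : Matrix (Fin M.rank) m F), M = U * W := by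
  obtain ⟨V, U, e, hV, hU, h⟩ := Matrix.exists_rank_normal_form M
  have hV' : IsUnit V.det := (Matrix.isUnit_iff_isUnit_det _).1 hV
  have hU' : IsUnit U.det := (Matrix.isUnit_iff_isUnit_det _).1 hU
  let E1 : Matrix m (Fin M.rank) F := Matrix.of fun i a => if e i = Sum.inl a then 1 else 0
  let E2 : Matrix (Fin M.rank) m F := Matrix.of fun a i => if e i = Sum.inl a then 1 else 0
  have h1 : (Matrix.fromBlocks 1 0 0 0 : Matrix (Fin M.rank ⊕ Fin (Fintype.card m - M.rank))
      (Fin M.rank ⊕ Fin (Fintype.card m - M.rank)) F).submatrix e e = E1 * E2 := by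
    ext i j
    rw [Matrix.submatrix_apply, Matrix.mul_apply]
    simp only [E1, E2, Matrix.of_apply]
    rcases hi : e i with a | a <;> rcases hj : e j with b | b
    · simp [Matrix.one_apply, eq_comm]
    · simp
    · simp
    · simp
  refine ⟨V⁻¹ * E1, E2 * U⁻¹, ?_⟩
  have h2 : V⁻¹ * (V * M * U) * U⁻¹ = M := by
    rw [Matrix.mul_assoc V M U, ← Matrix.mul_assoc V⁻¹, Matrix.nonsing_inv_mul _ hV',
      Matrix.one_mul, Matrix.mul_assoc, Matrix.mul_nonsing_inv _ hU', Matrix.mul_one]
  calc M = V⁻¹ * (V * M * U) * U⁻¹ := h2.symm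
    _ = V⁻¹ * (E1 * E2) * U⁻¹ := by rw [h, h1]
    _ = V⁻¹ * E1 * (E2 * U⁻¹) := by simp only [Matrix.mul_assoc]

variable {V K : Type} [Fintype V] [Fintype K]

lemma sum_blk {M : Type u} [AddCommMonoid M] (pos : K → V) (hpos : Function.Injective pos)
    (f : K → V → M) : ∑ v, (blk pos v).elim 0 (fun l => f l v) = ∑ l, f l (pos l) := by
  classical
  have h1 : ∑ v ∈ univ.image pos, (blk pos v).elim 0 (fun l => f l v) =
      ∑ v, (blk pos v).elim 0 (fun l => f l v) := by
    apply Finset.sum_subset (Finset.subset_univ _)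
    intro v _ hv
    rw [blk_none]
    · rfl
    · rintro ⟨l, hl⟩
      exact hv (Finset.mem_image.2 ⟨l, Finset.mem_univ _, hl⟩)
  rw [← h1, Finset.sum_image (fun a _ b _ hab => hpos hab)]
  apply Finset.sum_congr rfl
  intro l _
  rw [blk_pos pos hpos]
  rfl

/-- **The block bound** for determinantal representations. -/
theorem det_block_bound {m : Type} [Fintype m] [DecidableEq m] (pos : K → V)
    (hpos : Function.Injective pos) (A₀ : Matrix m m F) (A₁ : V → Matrix m m F)
    (P Q : MvPolynomial V F) (hQ : Q ≠ 0)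
    (hP : AlgebraicIndependent F (fun b : K → Bool => aeval (shift (S := F) (blk pos) b) P))
    (h : (A₀.map C + ∑ v, (X v : MvPolynomial V F) • (A₁ v).map C).det = Q * P) :
    2 ^ Fintype.card K ≤ (∑ l, (A₁ (pos l)).rank) ^ 2 + 2 := by
  classical
  let E := FractionRing (MvPolynomial V F)
  let x : V → E := fun v => algebraMap (MvPolynomial V F) E (X v)
  have hx : AlgebraicIndependent F x := by
    have h1 : AlgebraicIndependent F (X : V → MvPolynomial V F) :=
      MvPolynomial.algebraicIndependent_X V F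
    exact h1.map' (f := IsScalarTower.toAlgHom F (MvPolynomial V F) E)
      (IsFractionRing.injective _ _)
  choose U W hUW using fun l : K => rank_factor (A₁ (pos l))
  let R : Type := Σ l : K, Fin (A₁ (pos l)).rank
  have hR : Fintype.card R = ∑ l, (A₁ (pos l)).rank := by
    rw [Fintype.card_sigma]
    simp
  let Ub : Matrix m R E := Matrix.of fun i r => algebraMap F E (U r.1 i r.2)
  let Wb : Matrix R m E := Matrix.of fun r i => algebraMap F E (W r.1 r.2 i)
  let D : Matrix R R (MvPolynomial K E) := Matrix.diagonal fun r => X r.1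
  let M : Matrix m m E := Matrix.of fun i j =>
    algebraMap F E (A₀ i j) + ∑ v, x v * algebraMap F E (A₁ v i j)
  let Ub' : Matrix m R (MvPolynomial K E) := Ub.map C
  let Wb' : Matrix R m (MvPolynomial K E) := Wb.map C
  let M' : Matrix m m (MvPolynomial K E) := M.map C
  -- the substitution
  have h1 : aeval (gsub (blk pos) x) (Q * P) = (M' + Ub' * D * Wb').det := by
    rw [← h, AlgHom.map_det]
    congr 1
    ext1 i j
    simp only [AlgHom.mapMatrix_apply, Matrix.map_apply, Matrix.add_apply, Matrix.sum_apply,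
      Matrix.smul_apply, smul_eq_mul, map_add, map_sum, map_mul, aeval_X]
    have h2 : (Ub' * D * Wb') i j =
        ∑ l : K, X l * C (algebraMap F E (A₁ (pos l) i j)) := by
      rw [Matrix.mul_apply]
      simp only [D, Matrix.mul_diagonal, Matrix.map_apply, Ub, Wb, Ub', Wb', Matrix.of_apply]
      rw [Fintype.sum_sigma]
      apply Finset.sum_congr rfl
      intro l _
      conv_rhs => rw [hUW l, Matrix.mul_apply, map_sum, map_sum, Finset.mul_sum]
      apply Finset.sum_congr rfl
      intro a _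
      rw [map_mul, map_mul]
      ring
    rw [h2, ← sum_blk pos hpos (fun l v => (X l * C (algebraMap F E (A₁ v i j)) :
      MvPolynomial K E))]
    have h3 : ∀ v, gsub (blk pos) x v * aeval (gsub (blk pos) x) (C (A₁ v i j)) =
        C (x v * algebraMap F E (A₁ v i j)) +
          (blk pos v).elim 0 (fun l => X l * C (algebraMap F E (A₁ v i j))) := by
      intro v
      rw [aeval_C, gsub, map_mul, add_mul]
      congr 1
      rcases blk pos v with _ | l
      · simp
      · rfl
    simp only [h3]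
    rw [Finset.sum_add_distrib, ← add_assoc]
    congr 1
    simp only [M, M', Matrix.map_apply, Matrix.of_apply, map_add, map_sum]
    congr 1
    rw [aeval_C]
    rfl
  -- the matrix at the generic point is invertible
  have h2 : M.det ≠ 0 := by
    have h3 : aeval x (Q * P) = M.det := by
      rw [← h, AlgHom.map_det]
      congr 1
      ext1 i j
      simp [M, Matrix.sum_apply]
    rw [← h3, map_mul]
    apply mul_ne_zero
    · intro h4
      exact hQ (hx.eq_zero_of_aeval_eq_zero _ h4)
    · intro h4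
      have h5 := hx.eq_zero_of_aeval_eq_zero _ h4
      have h6 := hP.ne_zero (fun _ => false)
      rw [h5, map_zero] at h6
      exact h6 rfl
  let N : Matrix R R E := Wb * M⁻¹ * Ub
  let N' : Matrix R R (MvPolynomial K E) := N.map C
  let Mi' : Matrix m m (MvPolynomial K E) := (M⁻¹).map C
  have h3 : (M' + Ub' * D * Wb').det = C M.det * (1 + D * N').det := by
    have h4 : M' + Ub' * D * Wb' = M' * (1 + (Mi' * Ub') * (D * Wb')) := by
      rw [Matrix.mul_add, Matrix.mul_one]
      congr 1
      have h5 : M' * Mi' = 1 := by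
        show M.map C * (M⁻¹).map C = 1
        rw [← Matrix.map_mul, Matrix.mul_nonsing_inv _ (isUnit_iff_ne_zero.2 h2)]
        ext1 i j
        rw [Matrix.map_apply, Matrix.one_apply, Matrix.one_apply]
        split_ifs <;> simp
      simp only [← Matrix.mul_assoc]
      rw [h5, Matrix.one_mul]
    rw [h4, Matrix.det_mul, Matrix.det_one_add_mul_comm]
    congr 1
    · exact (RingHom.map_det C M).symm
    · congr 2
      show D * Wb' * (Mi' * Ub') = D * N'
      simp only [N', N, Ub', Wb', Mi', Matrix.map_mul, Matrix.mul_assoc]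
  -- count the parameters
  let g : Option (R × R) → E := fun o => o.elim M.det (fun q => N q.1 q.2)
  have hd : M.det ∈ Algebra.adjoin F (Set.range g) := Algebra.subset_adjoin ⟨none, rfl⟩
  have hN : ∀ r r', N r r' ∈ Algebra.adjoin F (Set.range g) := fun r r' =>
    Algebra.subset_adjoin ⟨some (r, r'), rfl⟩
  let N1 : Matrix R R (Algebra.adjoin F (Set.range g)) :=
    Matrix.of fun r r' => ⟨N r r', hN r r'⟩
  let ND : Matrix R R (MvPolynomial K (Algebra.adjoin F (Set.range g))) :=
    1 + Matrix.diagonal (fun r : R => X r.1) * N1.map C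
  have hND : ND.map (map (algebraMap (Algebra.adjoin F (Set.range g)) E)) = 1 + D * N' := by
    ext1 r r'
    simp only [ND, Matrix.map_apply, Matrix.add_apply, Matrix.diagonal_mul, map_add, map_mul,
      map_X, map_C, D, N', N1, Matrix.of_apply]
    congr 1
    rw [Matrix.one_apply, Matrix.one_apply]
    split_ifs <;> simp
  have hdet : map (algebraMap (Algebra.adjoin F (Set.range g)) E) (C ⟨M.det, hd⟩ * ND.det) =
      C M.det * (1 + D * N').det := by
    rw [map_mul, map_C, ← hND]
    congr 1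
    exact RingHom.map_det (map (algebraMap (Algebra.adjoin F (Set.range g)) E)) ND
  have h4 := count_bound (blk pos) x hx P Q hQ hP (Set.range g) (Fintype.card R ^ 2 + 1) (by
      rw [← Set.image_univ]
      refine (Set.encard_image_le _ _).trans ?_
      rw [Set.encard_univ]
      simp [sq]) _ rfl (C ⟨M.det, hd⟩ * ND.det) (by rw [hdet, h1, h3])
  rw [hR] at h4
  omega

end

/-- **The lower bound for the total rank**, general form. -/
theorem det_bound {n : ℕ} {A : Type v} [CommRing A] [IsDomain A] {F : Type u} [Field F]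
    [Algebra A F] [IsFractionRing A F] {k : Type w} [Field k] (φ : A →+* k)
    (h2 : (2 : k) ≠ 0) (κ : ℕ) (hκ : 1 ≤ κ) (hn : 6 * 2 ^ κ + 2 * κ ≤ n + 5)
    (P : MvPolynomial (Fin n × Fin n) A) (hP : map φ P = permX n k)
    (Q : MvPolynomial (Fin n × Fin n) F) (hQ : Q ≠ 0) {m : Type} [Fintype m] [DecidableEq m]
    (A₀ : Matrix m m F) (A₁ : Fin n × Fin n → Matrix m m F)
    (h : (A₀.map C + ∑ v, (X v : MvPolynomial (Fin n × Fin n) F) • (A₁ v).map C).det =
      Q * map (algebraMap A F) P) :
    n * (n / (2 * κ)) * 2 ^ κ ≤ ∑ v, (A₁ v).rank := by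
  have h3 : ∀ i : Fin n × Fin (n / (2 * κ)),
      2 ^ κ ≤ ∑ l, (A₁ (bpos n (2 * κ) i.1 i.2 l)).rank := by
    intro i
    have h4 := det_block_bound (bpos n (2 * κ) i.1 i.2) (by
        intro a b hab
        apply bpos_fst_inj n (2 * κ) i.1 i.2
        show (bpos n (2 * κ) i.1 i.2 a).1 = (bpos n (2 * κ) i.1 i.2 b).1
        rw [hab]) A₀ A₁ (map (algebraMap A F) P) Q hQ
      (lift_indep φ h2 κ hn _ (bpos_fst_inj _ _ _ _) (bpos_snd_inj _ _ _ _) P hP) h
    have e : 2 ^ (2 * κ) = (2 ^ κ) ^ 2 := by rw [mul_comm, pow_mul]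
    rw [Fintype.card_fin, e] at h4
    set r := ∑ l, (A₁ (bpos n (2 * κ) i.1 i.2 l)).rank with hr
    by_contra hlt
    push Not at hlt
    have h5 : 2 ≤ 2 ^ κ := by
      calc 2 = 2 ^ 1 := rfl
        _ ≤ 2 ^ κ := Nat.pow_le_pow_right (by norm_num) hκ
    obtain ⟨t, ht⟩ : ∃ t, 2 ^ κ = t + 1 := ⟨2 ^ κ - 1, by omega⟩
    rw [ht] at h4 hlt h5
    have h6 : r ≤ t := by omega
    nlinarith
  calc n * (n / (2 * κ)) * 2 ^ κ
      = ∑ _i : Fin n × Fin (n / (2 * κ)), 2 ^ κ := by
        rw [Finset.sum_const, Finset.card_univ, Fintype.card_prod, Fintype.card_fin,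
          Fintype.card_fin, smul_eq_mul]
    _ ≤ ∑ i : Fin n × Fin (n / (2 * κ)), ∑ l, (A₁ (bpos n (2 * κ) i.1 i.2 l)).rank :=
        Finset.sum_le_sum fun i _ => h3 i
    _ = ∑ q : (Fin n × Fin (n / (2 * κ))) × Fin (2 * κ),
          (A₁ (bpos n (2 * κ) q.1.1 q.1.2 q.2)).rank := by
        rw [Fintype.sum_prod_type (f := fun q : (Fin n × Fin (n / (2 * κ))) × Fin (2 * κ) =>
          (A₁ (bpos n (2 * κ) q.1.1 q.1.2 q.2)).rank)]
    _ ≤ ∑ v, (A₁ v).rank := by
        have hinj : Function.Injective (fun q : (Fin n × Fin (n / (2 * κ))) × Fin (2 * κ) =>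
            bpos n (2 * κ) q.1.1 q.1.2 q.2) := by
          rintro ⟨⟨d, s⟩, l⟩ ⟨⟨d', s'⟩, l'⟩ hq
          have e1 := bpos_disj n (2 * κ) d d' s s' l l' hq
          rw [Prod.mk.injEq] at e1
          obtain ⟨rfl, rfl⟩ := e1
          have e2 : l = l' := by
            apply bpos_fst_inj n (2 * κ) d s
            show (bpos n (2 * κ) d s l).1 = (bpos n (2 * κ) d s l').1
            have hq' : bpos n (2 * κ) d s l = bpos n (2 * κ) d s l' := hq
            rw [hq']
          rw [e2]
        have h6 := Finset.sum_map (univ : Finset ((Fin n × Fin (n / (2 * κ))) × Fin (2 * κ)))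
          ⟨_, hinj⟩ (fun v => (A₁ v).rank)
        simp only [Function.Embedding.coeFn_mk] at h6
        rw [← h6]
        exact Finset.sum_le_sum_of_subset (Finset.subset_univ _)

lemma arith2 (n κ L : ℕ) (hκ : 1 ≤ κ) (h1 : 8 * 2 ^ κ ≤ n) (h2 : n < 16 * 2 ^ κ)
    (h : n * (n / (2 * κ)) * 2 ^ κ ≤ L) : n ^ 3 ≤ 36 * κ * L := by
  have h3 : 2 * κ ≤ 2 ^ κ := by
    obtain ⟨j, rfl⟩ : ∃ j, κ = j + 1 := ⟨κ - 1, by omega⟩
    have := Nat.lt_two_pow_self (n := j)
    rw [pow_succ]
    omega
  set q := n / (2 * κ) with hq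
  have h4 : 8 ≤ q := by
    rw [hq, Nat.le_div_iff_mul_le (by omega)]
    omega
  have h5 : n < 2 * κ * (q + 1) := by
    have := Nat.lt_mul_div_succ n (b := 2 * κ) (by omega)
    exact this
  have h6 : 8 * n ≤ 18 * κ * q := by nlinarith
  have h8 : 8 * n ^ 3 ≤ n * (18 * κ * q) * (16 * 2 ^ κ) := by
    calc 8 * n ^ 3 = n * (8 * n) * n := by ring
      _ ≤ n * (18 * κ * q) * (16 * 2 ^ κ) :=
        Nat.mul_le_mul (Nat.mul_le_mul_left n h6) h2.le
  have h9 : n * (18 * κ * q) * (16 * 2 ^ κ) = 288 * κ * (n * q * 2 ^ κ) := by ring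
  have h10 : 288 * κ * (n * q * 2 ^ κ) ≤ 288 * κ * L := Nat.mul_le_mul_left _ h
  have h11 : 288 * κ * L = 8 * (36 * κ * L) := by ring
  omega

/-- the lower bound for the total rank -/
theorem det_lower_bound {n : ℕ} {A : Type v} [CommRing A] [IsDomain A] {F : Type u}
    [Field F] [Algebra A F] [IsFractionRing A F] {k : Type w} [Field k] (φ : A →+* k)
    (h2 : (2 : k) ≠ 0) (hn : 16 ≤ n)
    (P : MvPolynomial (Fin n × Fin n) A) (hP : map φ P = permX n k)
    (Q : MvPolynomial (Fin n × Fin n) F) (hQ : Q ≠ 0) {m : Type} [Fintype m] [DecidableEq m]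
    (A₀ : Matrix m m F) (A₁ : Fin n × Fin n → Matrix m m F)
    (h : (A₀.map C + ∑ v, (X v : MvPolynomial (Fin n × Fin n) F) • (A₁ v).map C).det =
      Q * map (algebraMap A F) P) :
    n ^ 3 ≤ 36 * Nat.log 2 n * ∑ v, (A₁ v).rank := by
  obtain ⟨κ, hκ, hκ2, h1, h3, h4⟩ := exists_kappa n hn
  have h5 := det_bound φ h2 κ hκ h4 P hP Q hQ A₀ A₁ h
  have h6 := arith2 n κ _ hκ h1 h3 h5
  exact h6.trans (Nat.mul_le_mul_right _ (Nat.mul_le_mul_left _ hκ2))

end Pool.Agent.V7H63.Perm
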