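import Pool.Agent.V7H63.Perm.PermIndep

/-!
# Arithmetic formulas and the method of Kalorkoti at a generic point
-/

set_option autoImplicit false

open MvPolynomial Finset

namespace Pool.Agent.V7H63.Perm

universe u v w

/-- Arithmetic formulas: binary trees whose leaves are variables or constants and whose inner
nodes are sums and products. -/
inductive Formula (V : Type) (F : Type u) : Type u
  /-- a leaf which is a variable -/
  | var : V → Formula V F
  /-- a leaf which is a constant -/
  | const : F → Formula V F
  /-- a sum -/
  | add : Formula V F → Formula V F → Formula V F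
  /-- a product -/
  | mul : Formula V F → Formula V F → Formula V F

namespace Formula

variable {V : Type} {F : Type u}

/-- the polynomial which is computed by a formula -/
noncomputable def eval [CommRing F] : Formula V F → MvPolynomial V F
  | var v => X v
  | const c => C c
  | add f g => f.eval + g.eval
  | mul f g => f.eval * g.eval

/-- the number of leaves which are variables (constants are free) -/
def leaves : Formula V F → ℕ
  | var _ => 1
  | const _ => 0
  | add f g => f.leaves + g.leaves
  | mul f g => f.leaves + g.leaves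

/-- the number of leaves which are variables of a block -/
def cnt {K : Type} (p : V → Option K) : Formula V F → ℕ
  | var v => if (p v).isSome then 1 else 0
  | const _ => 0
  | add f g => f.cnt p + g.cnt p
  | mul f g => f.cnt p + g.cnt p

lemma sum_cnt_le {K : Type} {ι : Type} [Fintype ι] (p : ι → V → Option K)
    (hd : ∀ v i j, (p i v).isSome → (p j v).isSome → i = j) (f : Formula V F) :
    ∑ i, f.cnt (p i) ≤ f.leaves := by
  classical
  induction f with
  | var v =>
    simp only [cnt, leaves]
    rw [← Finset.card_filter, Finset.card_le_one]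
    intro i hi j hj
    rw [Finset.mem_filter] at hi hj
    exact hd v i j hi.2 hj.2
  | const c => simp [cnt, leaves]
  | add f g hf hg =>
    simp only [cnt, leaves]
    rw [Finset.sum_add_distrib]
    omega
  | mul f g hf hg =>
    simp only [cnt, leaves]
    rw [Finset.sum_add_distrib]
    omega

end Formula

section

variable {V K : Type} {F E : Type u} [Field F] [Field E] [Algebra F E]

lemma gsub_zero_cnt (p : V → Option K) (f : Formula V F) (h : f.cnt p = 0) (a : V → E) :
    ∃ β : E, aeval (gsub p a) f.eval = C β := by
  induction f with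
  | var v =>
    simp only [Formula.cnt] at h
    have h1 : p v = none := by
      rcases hv : p v with _ | l
      · rfl
      · rw [hv] at h
        simp at h
    refine ⟨a v, ?_⟩
    rw [Formula.eval, aeval_X, gsub, h1]
    simp
  | const c =>
    refine ⟨algebraMap F E c, ?_⟩
    rw [Formula.eval, aeval_C]
    rfl
  | add f g hf hg =>
    simp only [Formula.cnt] at h
    obtain ⟨β, hβ⟩ := hf (by omega)
    obtain ⟨γ, hγ⟩ := hg (by omega)
    exact ⟨β + γ, by rw [Formula.eval, map_add, hβ, hγ, C_add]⟩
  | mul f g hf hg =>
    simp only [Formula.cnt] at h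
    obtain ⟨β, hβ⟩ := hf (by omega)
    obtain ⟨γ, hγ⟩ := hg (by omega)
    exact ⟨β * γ, by rw [Formula.eval, map_mul, hβ, hγ, C_mul]⟩

lemma map_aeval_rename {W W' : Type} {R : Type u} [CommRing R] [Algebra F R] (w : W' → R)
    (i : W → W') (T : MvPolynomial K (MvPolynomial W F)) :
    map (aeval w : MvPolynomial W' F →ₐ[F] R).toRingHom (map (rename i).toRingHom T) =
      map (aeval (fun v => w (i v)) : MvPolynomial W F →ₐ[F] R).toRingHom T := by
  rw [MvPolynomial.map_map]
  congr 2
  apply RingHom.ext
  intro q
  show aeval w (rename i q) = aeval (fun v => w (i v)) q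
  rw [aeval_rename]
  rfl

/-- **The method of Kalorkoti.** The polynomials in the variables of a block which arise from a
formula depend on few parameters. -/
lemma gparam (p : V → Option K) (f : Formula V F) (h : f.cnt p ≠ 0) :
    ∃ (W : Type) (_ : Fintype W) (T : MvPolynomial K (MvPolynomial W F)),
      Fintype.card W + 4 ≤ 4 * f.cnt p ∧
      ∀ (E : Type u) [Field E] [Algebra F E] (a : V → E), ∃ (w : W → E) (α β : E),
        aeval (gsub p a) f.eval =
          C α * map (aeval w : MvPolynomial W F →ₐ[F] E).toRingHom T + C β := by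
  induction f with
  | var v =>
    simp only [Formula.cnt] at h
    rcases hv : p v with _ | l
    · rw [hv] at h
      simp at h
    · refine ⟨Empty, inferInstance, X l, ?_, ?_⟩
      · simp [Formula.cnt, hv]
      · intro E _ _ a
        refine ⟨fun e => e.elim, 1, a v, ?_⟩
        rw [Formula.eval, aeval_X, gsub, hv, map_X, C_1, one_mul, add_comm]
        rfl
  | const c => simp [Formula.cnt] at h
  | add f g hf hg =>
    simp only [Formula.cnt] at h ⊢
    by_cases h1 : f.cnt p = 0
    · have h2 : g.cnt p ≠ 0 := by omega
      obtain ⟨W, i1, T, hW, hT⟩ := hg h2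
      refine ⟨W, i1, T, by omega, ?_⟩
      intro E _ _ a
      obtain ⟨w, α, β, hw⟩ := hT E a
      obtain ⟨γ, hγ⟩ := gsub_zero_cnt p f h1 a
      refine ⟨w, α, γ + β, ?_⟩
      rw [Formula.eval, map_add, hw, hγ, C_add]
      ring
    · by_cases h2 : g.cnt p = 0
      · obtain ⟨W, i1, T, hW, hT⟩ := hf h1
        refine ⟨W, i1, T, by omega, ?_⟩
        intro E _ _ a
        obtain ⟨w, α, β, hw⟩ := hT E a
        obtain ⟨γ, hγ⟩ := gsub_zero_cnt p g h2 a
        refine ⟨w, α, β + γ, ?_⟩
        rw [Formula.eval, map_add, hw, hγ, C_add]
        ring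
      · obtain ⟨W, i1, T, hW, hT⟩ := hf h1
        obtain ⟨W', i2, T', hW', hT'⟩ := hg h2
        refine ⟨(W ⊕ W') ⊕ Bool, inferInstance,
          C (X (Sum.inr true)) * map (rename (fun v => Sum.inl (Sum.inl v))).toRingHom T +
          C (X (Sum.inr false)) * map (rename (fun v => Sum.inl (Sum.inr v))).toRingHom T',
          ?_, ?_⟩
        · rw [Fintype.card_sum, Fintype.card_sum, Fintype.card_bool]
          omega
        · intro E _ _ a
          obtain ⟨w, α, β, hw⟩ := hT E a
          obtain ⟨w', α', β', hw'⟩ := hT' E a
          refine ⟨Sum.elim (Sum.elim w w') (fun b => if b then α else α'), 1, β + β', ?_⟩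
          rw [Formula.eval, map_add, hw, hw', map_add, map_mul, map_mul, map_aeval_rename,
            map_aeval_rename, C_add, map_C, map_C]
          simp only [AlgHom.toRingHom_eq_coe, RingHom.coe_coe, aeval_X, Sum.elim_inl,
            Sum.elim_inr, if_true, Bool.false_eq_true, if_false, map_one]
          ring
  | mul f g hf hg =>
    simp only [Formula.cnt] at h ⊢
    by_cases h1 : f.cnt p = 0
    · have h2 : g.cnt p ≠ 0 := by omega
      obtain ⟨W, i1, T, hW, hT⟩ := hg h2
      refine ⟨W, i1, T, by omega, ?_⟩
      intro E _ _ a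
      obtain ⟨w, α, β, hw⟩ := hT E a
      obtain ⟨γ, hγ⟩ := gsub_zero_cnt p f h1 a
      refine ⟨w, γ * α, γ * β, ?_⟩
      rw [Formula.eval, map_mul, hw, hγ, C_mul, C_mul]
      ring
    · by_cases h2 : g.cnt p = 0
      · obtain ⟨W, i1, T, hW, hT⟩ := hf h1
        refine ⟨W, i1, T, by omega, ?_⟩
        intro E _ _ a
        obtain ⟨w, α, β, hw⟩ := hT E a
        obtain ⟨γ, hγ⟩ := gsub_zero_cnt p g h2 a
        refine ⟨w, α * γ, β * γ, ?_⟩
        rw [Formula.eval, map_mul, hw, hγ, C_mul, C_mul]
        ring
      · obtain ⟨W, i1, T, hW, hT⟩ := hf h1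
        obtain ⟨W', i2, T', hW', hT'⟩ := hg h2
        refine ⟨(W ⊕ W') ⊕ (Bool × Bool), inferInstance,
          (C (X (Sum.inr (true, true))) *
              map (rename (fun v => Sum.inl (Sum.inl v))).toRingHom T +
            C (X (Sum.inr (true, false)))) *
          (C (X (Sum.inr (false, true))) *
              map (rename (fun v => Sum.inl (Sum.inr v))).toRingHom T' +
            C (X (Sum.inr (false, false)))),
          ?_, ?_⟩
        · rw [Fintype.card_sum, Fintype.card_sum, Fintype.card_prod, Fintype.card_bool]
          omega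
        · intro E _ _ a
          obtain ⟨w, α, β, hw⟩ := hT E a
          obtain ⟨w', α', β', hw'⟩ := hT' E a
          refine ⟨Sum.elim (Sum.elim w w') (fun b => if b.1 then (if b.2 then α else β) else
            (if b.2 then α' else β')), 1, 0, ?_⟩
          rw [Formula.eval, map_mul, hw, hw', map_mul, map_add, map_add, map_mul, map_mul,
            map_aeval_rename, map_aeval_rename, map_C, map_C, map_C, map_C]
          simp only [AlgHom.toRingHom_eq_coe, RingHom.coe_coe, aeval_X, Sum.elim_inl,
            Sum.elim_inr, if_true, Bool.false_eq_true, if_false, map_one, map_zero]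
          ring

variable [Fintype K]

/-- **The block bound** for formulas which compute a nonzero multiple of `P`. -/
lemma gblock_bound (hK : 2 ≤ Fintype.card K) (p : V → Option K) (f : Formula V F)
    (P Q : MvPolynomial V F) (hQ : Q ≠ 0)
    (hP : AlgebraicIndependent F (fun u : K → Bool => aeval (shift (S := F) p u) P))
    (hf : f.eval = Q * P) :
    2 ^ Fintype.card K + 1 ≤ 4 * f.cnt p := by
  classical
  let E := FractionRing (MvPolynomial V F)
  let x : V → E := fun v => algebraMap (MvPolynomial V F) E (X v)
  have hx : AlgebraicIndependent F x := by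
    have h1 : AlgebraicIndependent F (X : V → MvPolynomial V F) := MvPolynomial.algebraicIndependent_X V F
    exact h1.map' (f := IsScalarTower.toAlgHom F (MvPolynomial V F) E)
      (IsFractionRing.injective _ _)
  by_cases h0 : f.cnt p = 0
  · exfalso
    obtain ⟨β, hβ⟩ := gsub_zero_cnt (E := E) p f h0 x
    have h1 := count_bound p x hx P Q hQ hP {β} 1 (by simp) _ rfl
      (C ⟨β, Algebra.subset_adjoin rfl⟩) (by rw [map_C, ← hf, hβ]; rfl)
    have h2 : 2 ^ 2 ≤ 2 ^ Fintype.card K := Nat.pow_le_pow_right (by norm_num) hK
    omega
  · obtain ⟨W, i1, T, hW, hT⟩ := gparam p f h0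
    obtain ⟨w, α, β, hw⟩ := hT E x
    set s : Set E := Set.range (Sum.elim w (fun b : Bool => if b then α else β)) with hs
    have hws : ∀ i, w i ∈ Algebra.adjoin F s := fun i =>
      Algebra.subset_adjoin ⟨Sum.inl i, rfl⟩
    have hα : α ∈ Algebra.adjoin F s := Algebra.subset_adjoin ⟨Sum.inr true, rfl⟩
    have hβ : β ∈ Algebra.adjoin F s := Algebra.subset_adjoin ⟨Sum.inr false, rfl⟩
    have h1 := count_bound p x hx P Q hQ hP s (Fintype.card W + 2) (by
      rw [hs, ← Set.image_univ]
      refine (Set.encard_image_le _ _).trans ?_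
      rw [Set.encard_univ]
      simp) _ rfl
      (C ⟨α, hα⟩ * map (aeval (fun i => (⟨w i, hws i⟩ : Algebra.adjoin F s)) :
        MvPolynomial W F →ₐ[F] Algebra.adjoin F s).toRingHom T + C ⟨β, hβ⟩) (by
        rw [map_add, map_mul, map_C, map_C, MvPolynomial.map_map, ← hf, hw]
        congr 3
        congr 1
        apply RingHom.ext
        intro q
        show (algebraMap (Algebra.adjoin F s) E) (aeval (fun i =>
          (⟨w i, hws i⟩ : Algebra.adjoin F s)) q) = aeval w q
        rw [← aeval_algebraMap_apply]
        rfl)
    omega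

end

end Pool.Agent.V7H63.Perm
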