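import Pool.Agent.V7H63.Perm.Indep

/-!
# The gadget with three rows
-/

set_option autoImplicit false

open MvPolynomial Finset

namespace Pool.Agent.V7H63.Perm

universe u

variable {S : Type u} [CommRing S]

lemma top3 (c : S) (i j k : ℕ) :
    top (Fin 3) S (C c * (X 0 ^ i * X 1 ^ j * X 2 ^ k)) =
      if i = 1 ∧ j = 1 ∧ k = 1 then c else 0 := by
  rw [top_C_mul]
  have h1 : (X 0 ^ i * X 1 ^ j * X 2 ^ k : MvPolynomial (Fin 3) S) =
      monomial (Finsupp.single 0 i + Finsupp.single 1 j + Finsupp.single 2 k) 1 := by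
    rw [X_pow_eq_monomial, X_pow_eq_monomial, X_pow_eq_monomial, monomial_mul, monomial_mul,
      one_mul, one_mul]
  rw [h1, top_apply, coeff_monomial]
  by_cases h : i = 1 ∧ j = 1 ∧ k = 1
  · obtain ⟨rfl, rfl, rfl⟩ := h
    rw [if_pos, if_pos]
    · rw [mul_one]
    · exact ⟨rfl, rfl, rfl⟩
    · ext v
      fin_cases v <;> simp
  · rw [if_neg, if_neg h, mul_zero]
    intro h2
    apply h
    have h0 := DFunLike.congr_fun h2 0
    have h1 := DFunLike.congr_fun h2 1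
    have h3 := DFunLike.congr_fun h2 2
    simp at h0 h1 h3
    exact ⟨h0, h1, h3⟩

/-- the product of the three rows of the gadget -/
noncomputable def gad (q e0 e1 : S) : MvPolynomial (Fin 3) S :=
  (X 0 + X 1 + X 2 + C e0) * (-X 0 - X 1 + X 2 + C e1) * (X 2 + C q)

lemma gad_eq (q e0 e1 : S) (r s t : ℕ) :
    (X 0 ^ r * X 1 ^ s * X 2 ^ t) * gad q e0 e1 =
      C (-q) * (X 0 ^ (r + 2) * X 1 ^ s * X 2 ^ t) +
      C (-2 * q) * (X 0 ^ (r + 1) * X 1 ^ (s + 1) * X 2 ^ t) +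
      C (-q) * (X 0 ^ r * X 1 ^ (s + 2) * X 2 ^ t) +
      C (q * (e1 - e0)) * (X 0 ^ (r + 1) * X 1 ^ s * X 2 ^ t) +
      C (q * (e1 - e0)) * (X 0 ^ r * X 1 ^ (s + 1) * X 2 ^ t) +
      C (q * (e0 * e1)) * (X 0 ^ r * X 1 ^ s * X 2 ^ t) +
      C (-1) * (X 0 ^ (r + 2) * X 1 ^ s * X 2 ^ (t + 1)) +
      C (-2) * (X 0 ^ (r + 1) * X 1 ^ (s + 1) * X 2 ^ (t + 1)) +
      C (-1) * (X 0 ^ r * X 1 ^ (s + 2) * X 2 ^ (t + 1)) +
      C (e1 - e0) * (X 0 ^ (r + 1) * X 1 ^ s * X 2 ^ (t + 1)) +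
      C (e1 - e0) * (X 0 ^ r * X 1 ^ (s + 1) * X 2 ^ (t + 1)) +
      C (e0 * e1 + q * (e0 + e1)) * (X 0 ^ r * X 1 ^ s * X 2 ^ (t + 1)) +
      C (e0 + e1 + q) * (X 0 ^ r * X 1 ^ s * X 2 ^ (t + 2)) +
      C 1 * (X 0 ^ r * X 1 ^ s * X 2 ^ (t + 3)) := by
  simp only [gad, map_add, map_sub, map_mul, map_neg, map_one, map_ofNat]
  ring

lemma gad_top (q e0 e1 : S) (r s t : ℕ) (hr : r < 2) (hs : s < 2) (ht : t < 1) :
    top (Fin 3) S ((X 0 ^ r * X 1 ^ s * X 2 ^ t) * gad q e0 e1) =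
      if r = 0 then (if s = 0 then -2 else e1 - e0)
      else (if s = 0 then e1 - e0 else e0 * e1 + q * (e0 + e1)) := by
  rw [gad_eq]
  simp only [LinearMap.map_add, top3]
  interval_cases r <;> interval_cases s <;> interval_cases t <;> simp

lemma gad00 (q e0 e1 : S) : top (Fin 3) S (gad q e0 e1) = -2 := by
  have h := gad_top q e0 e1 0 0 0 (by omega) (by omega) (by omega)
  rw [pow_zero, pow_zero, pow_zero, mul_one, mul_one, one_mul] at h
  rw [h]
  simp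

lemma gad10 (q e0 e1 : S) : top (Fin 3) S (X 0 * gad q e0 e1) = e1 - e0 := by
  have h := gad_top q e0 e1 1 0 0 (by omega) (by omega) (by omega)
  rw [pow_zero, pow_zero, pow_one, mul_one, mul_one] at h
  rw [h]
  simp

lemma gad01 (q e0 e1 : S) : top (Fin 3) S (X 1 * gad q e0 e1) = e1 - e0 := by
  have h := gad_top q e0 e1 0 1 0 (by omega) (by omega) (by omega)
  rw [pow_zero, pow_zero, pow_one, mul_one, one_mul] at h
  rw [h]
  simp

lemma gad11 (q e0 e1 : S) :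
    top (Fin 3) S (X 0 * X 1 * gad q e0 e1) = e0 * e1 + q * (e0 + e1) := by
  have h := gad_top q e0 e1 1 1 0 (by omega) (by omega) (by omega)
  rw [pow_zero, pow_one, pow_one, mul_one] at h
  rw [h]
  simp

end Pool.Agent.V7H63.Perm
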