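import Pool.Agent.V7H63.Perm.PerSum

/-!
# Independence: products of polynomials in disjoint sets of variables
-/

set_option autoImplicit false

open MvPolynomial Finset

namespace Pool.Agent.V7H63.Perm

universe u

variable {B V : Type} [Fintype B] [Fintype V] {S : Type u} [CommRing S]

lemma mapDomain_sum_apply [DecidableEq B] (m : B → V →₀ ℕ) (b : B) (v : V) :
    (∑ b', Finsupp.mapDomain (fun v => (b', v)) (m b')) (b, v) = m b v := by
  rw [Finsupp.finsetSum_apply, Finset.sum_eq_single b]
  · have : (fun v : V => ((b, v) : B × V)) v = (b, v) := rfl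
    rw [← this]
    exact Finsupp.mapDomain_apply (fun _ _ h => (Prod.mk.inj h).2) _ _
  · intro b' _ hb
    apply Finsupp.mapDomain_notin_range
    rintro ⟨w, hw⟩
    exact hb (Prod.mk.inj hw).1
  · intro h
    exact absurd (Finset.mem_univ _) h

lemma top_prod_rename [DecidableEq B] (P : B → MvPolynomial V S) :
    top (B × V) S (∏ b, rename (fun v => (b, v)) (P b)) = ∏ b, top V S (P b) := by
  classical
  have h1 : ∀ b, rename (fun v => (b, v)) (P b) =
      ∑ m ∈ (P b).support, monomial (Finsupp.mapDomain (fun v => (b, v)) m) (coeff m (P b)) := by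
    intro b
    conv_lhs => rw [(P b).as_sum]
    rw [map_sum]
    apply Finset.sum_congr rfl
    intro m _
    rw [rename_monomial]
  simp_rw [h1]
  rw [Finset.prod_univ_sum, map_sum]
  have h2 : ∀ m : B → V →₀ ℕ, top (B × V) S
      (∏ b, monomial (Finsupp.mapDomain (fun v => (b, v)) (m b)) (coeff (m b) (P b))) =
      if ∀ b, m b = ones V then ∏ b, coeff (ones V) (P b) else 0 := by
    intro m
    have h3 : (∏ b, monomial (Finsupp.mapDomain (fun v => (b, v)) (m b)) (coeff (m b) (P b)) :
        MvPolynomial (B × V) S) =
        C (∏ b, coeff (m b) (P b)) *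
          monomial (∑ b, Finsupp.mapDomain (fun v => (b, v)) (m b)) 1 := by
      rw [monomial_sum_one, map_prod, ← Finset.prod_mul_distrib]
      apply Finset.prod_congr rfl
      intro b _
      rw [C_mul_monomial, mul_one]
    rw [h3, top_C_mul, top_apply, coeff_monomial]
    by_cases h : ∀ b, m b = ones V
    · rw [if_pos h, if_pos]
      · rw [mul_one]
        apply Finset.prod_congr rfl
        intro b _
        rw [h b]
      · ext ⟨b, v⟩
        rw [mapDomain_sum_apply, h b]
        rfl
    · rw [if_neg h, if_neg, mul_zero]
      intro h4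
      apply h
      intro b
      ext v
      have h5 := DFunLike.congr_fun h4 (b, v)
      rw [mapDomain_sum_apply] at h5
      exact h5
  simp_rw [h2]
  by_cases h : ∀ b, coeff (ones V) (P b) ≠ 0
  · rw [Finset.sum_eq_single (fun _ => ones V)]
    · simp [top_apply]
    · intro m _ hm
      rw [if_neg]
      intro h3
      exact hm (funext h3)
    · intro h3
      exfalso
      apply h3
      rw [Fintype.mem_piFinset]
      intro b
      rw [mem_support_iff]
      exact h b
  · push Not at h
    obtain ⟨b, hb⟩ := h
    have h3 : ∏ b, coeff (ones V) (P b) = 0 := Finset.prod_eq_zero (Finset.mem_univ b) hb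
    rw [h3]
    simp only [ite_self, Finset.sum_const_zero]
    symm
    exact h3

end Pool.Agent.V7H63.Perm
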