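import Pool.Agent.V7H63.Perm.Stage

/-!
# The tree of gadgets
-/

set_option autoImplicit false

open MvPolynomial Finset

namespace Pool.Agent.V7H63.Perm

universe u

/-- the sign which belongs to a bit -/
def sg {S : Type u} [CommRing S] (t : Bool) : S := if t then 1 else -1

/-- the entries of an integer matrix, with variables added at special places -/
def ent {L I J : Type} [Fintype L] [DecidableEq I] [DecidableEq J] {S : Type u} [CommRing S]
    (A : I → J → ℤ) (rs : L → I) (cs : L → J) (x : L → S) (i : I) (j : J) : S :=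
  (A i j : S) + ∑ l, if rs l = i ∧ cs l = j then x l else 0

/-- add a bit -/
def ext {L : Type} (b : L → Bool) (t : Bool) : Option L → Bool := fun o => o.elim t b

section step

variable {L I J : Type} [Fintype L] [DecidableEq L] [Fintype I] [DecidableEq I]
  [Fintype J] [DecidableEq J]

/-- the rows and columns which are added in a step -/
abbrev RK (L : Type) : Type := ((L → Bool) × Fin 3) ⊕ Unit

/-- the matrix of the gadget -/
def gm : Fin 3 → Fin 3 → ℤ := ![![1, 1, 1], ![-1, -1, 1], ![0, 0, 1]]

/-- the next matrix -/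
def nA (A : I → J → ℤ) (out : I → (L → Bool) → ℤ) : I ⊕ RK L → J ⊕ RK L → ℤ
  | Sum.inl i, Sum.inl j => A i j
  | Sum.inl i, Sum.inr (Sum.inl (b, v)) => if v = 0 then out i b else 0
  | Sum.inl _, Sum.inr (Sum.inr _) => 0
  | Sum.inr _, Sum.inl _ => 0
  | Sum.inr (Sum.inl (b, r)), Sum.inr (Sum.inl (b', v)) => if b = b' then gm r v else 0
  | Sum.inr (Sum.inl (_, r)), Sum.inr (Sum.inr _) => if r = 2 then 1 else 0
  | Sum.inr (Sum.inr _), Sum.inr (Sum.inl (_, v)) => if v = 1 then 1 else 0
  | Sum.inr (Sum.inr _), Sum.inr (Sum.inr _) => 0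

/-- the next output matrix -/
def nout (L I : Type) [Fintype L] [DecidableEq L] : I ⊕ RK L → (Option L → Bool) → ℤ
  | Sum.inl _, _ => 0
  | Sum.inr (Sum.inl (b, r)), b' =>
      if (r = 0 ∧ b' = ext b false) ∨ (r = 1 ∧ b' = ext b true) then 1 else 0
  | Sum.inr (Sum.inr _), _ => 0

/-- the next special rows or columns -/
def nsp (rs : L → I) : Option L → I ⊕ RK L
  | none => Sum.inr (Sum.inr ())
  | some l => Sum.inl (rs l)

lemma nsp_inj (rs : L → I) (h : Function.Injective rs) : Function.Injective (nsp rs) := by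
  intro a b hab
  rcases a with _ | a <;> rcases b with _ | b
  · rfl
  · simp [nsp] at hab
  · simp [nsp] at hab
  · simp only [nsp, Sum.inl.injEq] at hab
    rw [h hab]

variable {S : Type u} [CommRing S]

lemma ent_C (A : I → J → ℤ) (rs : L → I) (cs : L → J) (x : L → S) (i : I) (j : J) (K : Type) :
    ent A rs cs (fun l => (C (x l) : MvPolynomial K S)) i j = C (ent A rs cs x i j) := by
  simp only [ent, map_add, map_sum, map_intCast]
  congr 1
  apply Finset.sum_congr rfl
  intro l _
  split_ifs <;> simp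

section entries

variable (A : I → J → ℤ) (out : I → (L → Bool) → ℤ) (rs : L → I) (cs : L → J)
    (x : Option L → S)

lemma ent_ll (i : I) (j : J) : ent (nA A out) (nsp rs) (nsp cs) x (Sum.inl i) (Sum.inl j) =
    ent A rs cs (fun l => x (some l)) i j := by
  rw [ent, ent, Fintype.sum_option]
  simp [nA, nsp]

lemma ent_lg (i : I) (b : L → Bool) (v : Fin 3) :
    ent (nA A out) (nsp rs) (nsp cs) x (Sum.inl i) (Sum.inr (Sum.inl (b, v))) =
    if v = 0 then (out i b : S) else 0 := by
  rw [ent, Fintype.sum_option]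
  simp only [nA, nsp, reduceCtorEq, false_and, and_false, if_false, Finset.sum_const_zero,
    add_zero]
  split_ifs <;> simp

lemma ent_lu (i : I) (u : Unit) :
    ent (nA A out) (nsp rs) (nsp cs) x (Sum.inl i) (Sum.inr (Sum.inr u)) = 0 := by
  rw [ent, Fintype.sum_option]
  simp only [nA, nsp, reduceCtorEq, false_and, and_false, if_false, Finset.sum_const_zero,
    add_zero, Int.cast_zero]

lemma ent_rl (r : RK L) (j : J) :
    ent (nA A out) (nsp rs) (nsp cs) x (Sum.inr r) (Sum.inl j) = 0 := by
  rw [ent, Fintype.sum_option]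
  rcases r with ⟨b, r⟩ | r <;>
  simp only [nA, nsp, reduceCtorEq, false_and, and_false, if_false, Finset.sum_const_zero,
    add_zero, Int.cast_zero]

lemma ent_gg (b : L → Bool) (r : Fin 3) (b' : L → Bool) (v : Fin 3) :
    ent (nA A out) (nsp rs) (nsp cs) x (Sum.inr (Sum.inl (b, r))) (Sum.inr (Sum.inl (b', v))) =
    if b = b' then (gm r v : S) else 0 := by
  rw [ent, Fintype.sum_option]
  simp only [nA, nsp, reduceCtorEq, false_and, and_false, if_false, Finset.sum_const_zero,
    add_zero, Sum.inr.injEq]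
  split_ifs <;> simp

lemma ent_gu (b : L → Bool) (r : Fin 3) (u : Unit) :
    ent (nA A out) (nsp rs) (nsp cs) x (Sum.inr (Sum.inl (b, r))) (Sum.inr (Sum.inr u)) =
    if r = 2 then 1 else 0 := by
  rw [ent, Fintype.sum_option]
  simp only [nA, nsp, reduceCtorEq, false_and, and_false, if_false, Finset.sum_const_zero,
    add_zero, Sum.inr.injEq]
  split_ifs <;> simp

lemma ent_ug (u : Unit) (b' : L → Bool) (v : Fin 3) :
    ent (nA A out) (nsp rs) (nsp cs) x (Sum.inr (Sum.inr u)) (Sum.inr (Sum.inl (b', v))) =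
    if v = 1 then 1 else 0 := by
  rw [ent, Fintype.sum_option]
  simp only [nA, nsp, reduceCtorEq, false_and, and_false, if_false, Finset.sum_const_zero,
    add_zero, Sum.inr.injEq]
  split_ifs <;> simp

lemma ent_uu (u u' : Unit) :
    ent (nA A out) (nsp rs) (nsp cs) x (Sum.inr (Sum.inr u)) (Sum.inr (Sum.inr u')) =
    x none := by
  rw [ent, Fintype.sum_option]
  simp [nA, nsp]

end entries

lemma sum_all {M : Type*} [AddCommMonoid M] (f : J ⊕ RK L → M) :
    ∑ j, f j = ∑ j, f (Sum.inl j) + (∑ b, (f (Sum.inr (Sum.inl (b, 0))) +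
      f (Sum.inr (Sum.inl (b, 1))) + f (Sum.inr (Sum.inl (b, 2)))) +
      f (Sum.inr (Sum.inr ()))) := by
  rw [Fintype.sum_sum_type, Fintype.sum_sum_type, Fintype.sum_prod_type]
  congr 2
  · apply Finset.sum_congr rfl
    intro b _
    rw [Fin.sum_univ_three]
  · simp

lemma row_old (A : I → J → ℤ) (out : I → (L → Bool) → ℤ) (rs : L → I) (cs : L → J)
    (x : Option L → S) (e : (Option L → Bool) → S) (i : I) :
    sumAlgEquiv S J (RK L) (C (∑ b, (nout L I (Sum.inl i) b : S) * e b) +
      ∑ j, C (ent (nA A out) (nsp rs) (nsp cs) x (Sum.inl i) j) * X j) =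
    C (∑ b, (out i b : MvPolynomial (RK L) S) * X (Sum.inl (b, 0))) +
      ∑ j, C (ent A rs cs (fun l => C (x (some l))) i j) * X j := by
  have h1 : ∑ b, (nout L I (Sum.inl i) b : S) * e b = 0 := by
    simp only [nout, Int.cast_zero, zero_mul, Finset.sum_const_zero]
  rw [h1, map_zero, zero_add, sum_all]
  simp only [ent_ll, ent_lg, ent_lu, map_zero, zero_mul, add_zero, map_add, map_sum, map_mul,
    sumAlgEquiv_C_inl, sumAlgEquiv_X_inl, sumAlgEquiv_X_inr, ent_C]
  rw [add_comm]
  congr 1
  apply Finset.sum_congr rfl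
  intro b _
  simp

lemma row_gadget (A : I → J → ℤ) (out : I → (L → Bool) → ℤ) (rs : L → I) (cs : L → J)
    (x : Option L → S) (e : (Option L → Bool) → S) (b : L → Bool) (r : Fin 3) :
    (C (∑ b', (nout L I (Sum.inr (Sum.inl (b, r))) b' : S) * e b') +
      ∑ j, C (ent (nA A out) (nsp rs) (nsp cs) x (Sum.inr (Sum.inl (b, r))) j) * X j :
      MvPolynomial (J ⊕ RK L) S) =
    C (if r = 0 then e (ext b false) else if r = 1 then e (ext b true) else 0) +
      (C (gm r 0 : S) * X (Sum.inr (Sum.inl (b, 0))) +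
       C (gm r 1 : S) * X (Sum.inr (Sum.inl (b, 1))) +
       C (gm r 2 : S) * X (Sum.inr (Sum.inl (b, 2))) +
       C (if r = 2 then 1 else 0) * X (Sum.inr (Sum.inr ()))) := by
  congr 1
  · congr 1
    have ho : ∀ b', (nout L I (Sum.inr (Sum.inl (b, r))) b' : S) * e b' =
        (if r = 0 ∧ b' = ext b false then e b' else 0) +
        (if r = 1 ∧ b' = ext b true then e b' else 0) := by
      intro b'
      rw [nout]
      by_cases h0 : r = 0
      · subst h0
        simp
      · by_cases h1 : r = 1
        · subst h1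
          simp
        · simp [h0, h1]
    rw [Finset.sum_congr rfl (fun b' _ => ho b'), Finset.sum_add_distrib]
    by_cases h0 : r = 0
    · subst h0
      simp
    · by_cases h1 : r = 1
      · subst h1
        simp
      · simp [h0, h1]
  · rw [sum_all]
    simp only [ent_rl, ent_gg, ent_gu, map_zero, zero_mul, Finset.sum_const_zero, zero_add]
    congr 1
    rw [Finset.sum_eq_single b]
    · simp only [if_true]
    · intro b' _ hb'
      simp only [if_neg hb'.symm, map_zero, zero_mul, add_zero]
    · intro h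
      exact absurd (Finset.mem_univ _) h

lemma row_unit (A : I → J → ℤ) (out : I → (L → Bool) → ℤ) (rs : L → I) (cs : L → J)
    (x : Option L → S) (e : (Option L → Bool) → S) (u : Unit) :
    (C (∑ b', (nout L I (Sum.inr (Sum.inr u)) b' : S) * e b') +
      ∑ j, C (ent (nA A out) (nsp rs) (nsp cs) x (Sum.inr (Sum.inr u)) j) * X j :
      MvPolynomial (J ⊕ RK L) S) =
    C (x none) * X (Sum.inr (Sum.inr ())) + ∑ b, X (Sum.inr (Sum.inl (b, 1))) := by
  have h1 : ∑ b, (nout L I (Sum.inr (Sum.inr u)) b : S) * e b = 0 := by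
    simp only [nout, Int.cast_zero, zero_mul, Finset.sum_const_zero]
  rw [h1, sum_all]
  simp only [ent_rl, ent_ug, ent_uu, map_zero, zero_mul, Finset.sum_const_zero, zero_add]
  rw [add_comm]
  congr 1
  apply Finset.sum_congr rfl
  intro b _
  simp

lemma rows_new (A : I → J → ℤ) (out : I → (L → Bool) → ℤ) (rs : L → I) (cs : L → J)
    (x : Option L → S) (e : (Option L → Bool) → S) :
    (∏ r : RK L, (C (∑ b, (nout L I (Sum.inr r) b : S) * e b) +
        ∑ j, C (ent (nA A out) (nsp rs) (nsp cs) x (Sum.inr r) j) * X j)) =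
        rename Sum.inr
          (stageRows (x none) (fun b => e (ext b false)) (fun b => e (ext b true))) := by
  rw [Fintype.prod_sum_type, stageRows, map_mul, Fintype.prod_prod_type, map_prod]
  congr 1
  · apply Finset.prod_congr rfl
    intro b _
    rw [Fin.prod_univ_three, row_gadget, row_gadget, row_gadget]
    simp only [map_mul, map_add, map_sub, map_neg, rename_X, rename_C]
    simp [gm]
    ring
  · rw [Fintype.prod_unique, row_unit]
    simp only [map_mul, map_add, rename_X, rename_C, map_sum]

lemma step_rows (A : I → J → ℤ) (out : I → (L → Bool) → ℤ) (rs : L → I) (cs : L → J)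
    (x : Option L → S) (e : (Option L → Bool) → S) :
    sumAlgEquiv S J (RK L) (∏ i, (C (∑ b, (nout L I i b : S) * e b) +
      ∑ j, C (ent (nA A out) (nsp rs) (nsp cs) x i j) * X j)) =
    (∏ i, (C (∑ b, (out i b : MvPolynomial (RK L) S) * X (Sum.inl (b, 0))) +
      ∑ j, C (ent A rs cs (fun l => C (x (some l))) i j) * X j)) *
    C (stageRows (x none) (fun b => e (ext b false)) (fun b => e (ext b true))) := by
  rw [Fintype.prod_sum_type, map_mul, rows_new, map_prod]
  congr 1
  · apply Finset.prod_congr rfl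
    intro i _
    exact row_old A out rs cs x e i
  · exact DFunLike.congr_fun (sumAlgEquiv_comp_rename_inr (R := S) (S₁ := J) (S₂ := RK L))
      (stageRows (x none) (fun b => e (ext b false)) (fun b => e (ext b true)))

end step

end Pool.Agent.V7H63.Perm
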