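import Pool.Agent.V7H63.Perm.Top

/-!
# The top coefficient of a product of affine forms is a permanent
-/

set_option autoImplicit false

open MvPolynomial Finset

namespace Pool.Agent.V7H63.Perm

universe u

variable {I J : Type} [Fintype I] [Fintype J] {S : Type u} [CommRing S]

/-- the exponent vector of the product of the variables which are hit by `p` -/
noncomputable def expo (p : I → Option J) : J →₀ ℕ :=
  ∑ i, (p i).elim (0 : J →₀ ℕ) (fun j => Finsupp.single j 1)

lemma expo_apply [DecidableEq J] (p : I → Option J) (j : J) :
    expo p j = #{i | p i = some j} := by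
  rw [expo, Finsupp.finset_sum_apply, Finset.card_filter]
  apply Finset.sum_congr rfl
  intro i _
  rcases h : p i with _ | j'
  · simp
  · simp [Finsupp.single_apply]

lemma top_prod_opt [DecidableEq J] (p : I → Option J) :
    top J S (∏ i, (p i).elim 1 X) =
      if ∀ j, #{i | p i = some j} = 1 then 1 else 0 := by
  have h1 : (∏ i, (p i).elim (1 : MvPolynomial J S) X) = monomial (expo p) 1 := by
    rw [expo, monomial_sum_one]
    apply Finset.prod_congr rfl
    intro i _
    rcases p i with _ | j
    · rfl
    · rfl
  rw [h1, top_apply, coeff_monomial]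
  congr 1
  rw [eq_iff_iff]
  constructor
  · intro h j
    rw [← expo_apply, h, ones_apply]
  · intro h
    ext j
    rw [expo_apply, h, ones_apply]

/-- the top coefficient of a product of affine forms, expanded -/
lemma top_prod_affine [DecidableEq I] [DecidableEq J] (A : I → J → S) (c : I → S) :
    top J S (∏ i, (C (c i) + ∑ j, C (A i j) * X j)) =
      ∑ p : I → Option J, if ∀ j, #{i | p i = some j} = 1
        then ∏ i, (p i).elim (c i) (A i) else 0 := by
  have h1 : ∀ i, (C (c i) + ∑ j, C (A i j) * X j : MvPolynomial J S) =
      ∑ o : Option J, C (o.elim (c i) (A i)) * o.elim 1 X := by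
    intro i
    rw [Fintype.sum_option]
    simp
  simp_rw [h1]
  rw [Finset.prod_univ_sum, map_sum, Fintype.piFinset_univ]
  apply Finset.sum_congr rfl
  intro p _
  rw [Finset.prod_mul_distrib, ← map_prod, top_C_mul, top_prod_opt]
  simp

lemma bij_of_card [DecidableEq I] [DecidableEq J] (hc : Fintype.card I = Fintype.card J + 1)
    (p : I → Option J) :
    (∀ j, #{i | p i = some j} = 1) ↔ Function.Bijective p := by
  constructor
  · intro h
    have h2 : #{i | p i = none} = 1 := by
      have h3 : Fintype.card I = ∑ o : Option J, #{i | p i = o} := by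
        rw [← Finset.card_univ]
        exact Finset.card_eq_sum_card_fiberwise (fun _ _ => by simp)
      rw [Fintype.sum_option, Finset.sum_congr rfl (fun j _ => h j)] at h3
      simp only [Finset.sum_const, Finset.card_univ, smul_eq_mul, mul_one] at h3
      omega
    rw [Function.bijective_iff_existsUnique]
    intro o
    rw [Fintype.existsUnique_iff_card_one]
    rcases o with _ | j
    · exact h2
    · exact h j
  · intro h j
    rw [Function.bijective_iff_existsUnique] at h
    exact (Fintype.existsUnique_iff_card_one _).1 (h (some j))

/-- A product of `|J| + 1` affine forms in `|J|` variables. -/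
lemma top_prod_affine_card [DecidableEq I] [DecidableEq J]
    (hc : Fintype.card I = Fintype.card J + 1) (A : I → J → S) (c : I → S) :
    top J S (∏ i, (C (c i) + ∑ j, C (A i j) * X j)) =
      ∑ e : I ≃ Option J, ∏ i, (e i).elim (c i) (A i) := by
  rw [top_prod_affine, ← Finset.sum_filter]
  symm
  apply Finset.sum_bij (fun (e : I ≃ Option J) _ => (e : I → Option J))
  · intro e _
    rw [Finset.mem_filter]
    exact ⟨Finset.mem_univ _, (bij_of_card hc _).2 e.bijective⟩
  · intro e _ e' _ h
    exact DFunLike.coe_injective h
  · intro p hp
    rw [Finset.mem_filter] at hp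
    refine ⟨Equiv.ofBijective p ((bij_of_card hc p).1 hp.2), Finset.mem_univ _, rfl⟩
  · intro e _
    rfl

/-- A product of linear forms. -/
lemma top_prod_linear [DecidableEq I] [DecidableEq J] (A : I → J → S) :
    top J S (∏ i, ∑ j, C (A i j) * X j) = ∑ e : I ≃ J, ∏ i, A i (e i) := by
  rw [Finset.prod_univ_sum, map_sum, Fintype.piFinset_univ]
  have h1 : ∀ p : I → J, top J S (∏ i, C (A i (p i)) * X (p i)) =
      if Function.Bijective p then ∏ i, A i (p i) else 0 := by
    intro p
    rw [Finset.prod_mul_distrib, ← map_prod, top_C_mul]
    have h2 := top_prod_opt (S := S) (fun i => some (p i))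
    simp only [Option.elim_some, Option.some.injEq] at h2
    rw [h2]
    by_cases hp : Function.Bijective p
    · rw [if_pos hp, if_pos, mul_one]
      intro j
      rw [Function.bijective_iff_existsUnique] at hp
      exact (Fintype.existsUnique_iff_card_one _).1 (hp j)
    · rw [if_neg hp, if_neg, mul_zero]
      intro h3
      apply hp
      rw [Function.bijective_iff_existsUnique]
      intro j
      rw [Fintype.existsUnique_iff_card_one]
      exact h3 j
  simp_rw [h1]
  rw [← Finset.sum_filter]
  symm
  apply Finset.sum_bij (fun (e : I ≃ J) _ => (e : I → J))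
  · intro e _
    rw [Finset.mem_filter]
    exact ⟨Finset.mem_univ _, e.bijective⟩
  · intro e _ e' _ h
    exact DFunLike.coe_injective h
  · intro p hp
    rw [Finset.mem_filter] at hp
    exact ⟨Equiv.ofBijective p hp.2, Finset.mem_univ _, rfl⟩
  · intro e _
    rfl

end Pool.Agent.V7H63.Perm
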