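import Pool.Agent.V7H63.Perm.Gadget

/-!
# One stage: a family of gadgets which share one special row and one special column
-/

set_option autoImplicit false

open MvPolynomial Finset

namespace Pool.Agent.V7H63.Perm

universe u

variable {S : Type u} [CommRing S]

lemma top_unit (α β : S) : top Unit S (C α * X () + C β) = α := by
  have h1 : (C α * X () + C β : MvPolynomial Unit S) =
      C α * monomial (Finsupp.single () 1) 1 + C β * monomial 0 1 := by
    rw [show (monomial 0 (1 : S) : MvPolynomial Unit S) = 1 from rfl, mul_one]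
    rfl
  rw [h1, LinearMap.map_add, top_C_mul, top_C_mul, top_apply, top_apply, coeff_monomial,
    coeff_monomial, if_pos, if_neg]
  · ring
  · intro h
    have := DFunLike.congr_fun h ()
    simp at this
  · ext i
    simp

lemma prod_one_special {B R : Type*} [Fintype B] [DecidableEq B] [CommMonoid R] (b : B)
    (f : B → R) (v : R) (hf : ∀ b', b' ≠ b → f b' = v) :
    ∏ b', f b' = f b * v ^ (Fintype.card B - 1) := by
  rw [← Finset.mul_prod_erase univ _ (Finset.mem_univ b)]
  congr 1
  rw [Finset.prod_congr rfl (fun b' hb' => hf b' (Finset.ne_of_mem_erase hb')),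
    Finset.prod_const, Finset.card_erase_of_mem (Finset.mem_univ b), Finset.card_univ]

variable {B : Type} [Fintype B] [DecidableEq B]

/-- the product of the rows of all gadgets, as a polynomial in the variables of the gadgets -/
noncomputable def gads (q : S) (e0 e1 : B → S) : MvPolynomial (B × Fin 3) S :=
  ∏ b, rename (fun v => (b, v)) (gad q (e0 b) (e1 b))

lemma gads_one (q : S) (e0 e1 : B → S) (b : B) :
    top (B × Fin 3) S (X (b, 0) * gads q e0 e1) =
      (e1 b - e0 b) * (-2) ^ (Fintype.card B - 1) := by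
  have h1 : X (b, 0) * gads q e0 e1 =
      ∏ b', rename (fun v => (b', v)) ((if b' = b then X 0 else 1) * gad q (e0 b') (e1 b')) := by
    simp_rw [map_mul]
    rw [Finset.prod_mul_distrib]
    congr 1
    rw [prod_one_special b _ 1]
    · simp
    · intro b' hb'
      simp [hb']
  rw [h1, top_prod_rename, prod_one_special b _ (-2)]
  · simp [gad10]
  · intro b' hb'
    simp [hb', gad00]

lemma gads_two_eq (q : S) (e0 e1 : B → S) (b : B) :
    top (B × Fin 3) S (X (b, 1) * (X (b, 0) * gads q e0 e1)) =
      (e0 b * e1 b + q * (e0 b + e1 b)) * (-2) ^ (Fintype.card B - 1) := by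
  have h1 : X (b, 1) * (X (b, 0) * gads q e0 e1) =
      ∏ b', rename (fun v => (b', v))
        ((if b' = b then X 0 * X 1 else 1) * gad q (e0 b') (e1 b')) := by
    simp_rw [map_mul]
    rw [Finset.prod_mul_distrib, ← mul_assoc]
    congr 1
    rw [prod_one_special b _ 1]
    · simp [mul_comm]
    · intro b' hb'
      simp [hb']
  rw [h1, top_prod_rename, prod_one_special b _ (-2)]
  · simp [gad11]
  · intro b' hb'
    simp [hb', gad00]

lemma gads_two_ne (q : S) (e0 e1 : B → S) (b c : B) (hc : c ≠ b) :
    top (B × Fin 3) S (X (c, 1) * (X (b, 0) * gads q e0 e1)) =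
      ∏ b', (if b' = b then e1 b - e0 b else if b' = c then e1 c - e0 c else -2) := by
  have h1 : X (c, 1) * (X (b, 0) * gads q e0 e1) =
      ∏ b', rename (fun v => (b', v))
        ((if b' = b then X 0 else 1) * ((if b' = c then X 1 else 1) * gad q (e0 b') (e1 b'))) := by
    simp_rw [map_mul]
    rw [Finset.prod_mul_distrib, Finset.prod_mul_distrib, mul_left_comm]
    congr 1
    · rw [prod_one_special b _ 1]
      · simp
      · intro b' hb'
        simp [hb']
    · congr 1
      rw [prod_one_special c _ 1]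
      · simp
      · intro b' hb'
        simp [hb']
  rw [h1, top_prod_rename]
  apply Finset.prod_congr rfl
  intro b' _
  by_cases hb : b' = b
  · subst hb
    simp [hc.symm, gad10]
  · by_cases hb2 : b' = c
    · subst hb2
      simp [hb, gad01]
    · simp [hb, hb2, gad00]

/-- the rows of a stage -/
noncomputable def stageRows (x : S) (e0 e1 : B → S) : MvPolynomial ((B × Fin 3) ⊕ Unit) S :=
  (∏ b, ((X (Sum.inl (b, 0)) + X (Sum.inl (b, 1)) + X (Sum.inl (b, 2)) + C (e0 b)) *
    (-X (Sum.inl (b, 0)) - X (Sum.inl (b, 1)) + X (Sum.inl (b, 2)) + C (e1 b)) *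
    (X (Sum.inl (b, 2)) + X (Sum.inr ())))) *
  (C x * X (Sum.inr ()) + ∑ b, X (Sum.inl (b, 1)))

lemma stage (x : S) (e0 e1 : B → S) (b : B) :
    top ((B × Fin 3) ⊕ Unit) S (X (Sum.inl (b, 0)) * stageRows x e0 e1) =
      (-2) ^ (Fintype.card B - 1) * ((1 - x) * e0 b + (1 + x) * e1 b) := by
  have h1 : sumAlgEquiv S (B × Fin 3) Unit (X (Sum.inl (b, 0)) * stageRows x e0 e1) =
      C (C x * X ()) * (X (b, 0) * gads (X ()) (fun b => C (e0 b)) (fun b => C (e1 b))) +
      ∑ c, X (c, 1) * (X (b, 0) * gads (X ()) (fun b => C (e0 b)) (fun b => C (e1 b))) := by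
    rw [← Finset.sum_mul, ← add_mul, stageRows, gads]
    simp only [map_mul, map_prod, map_add, map_sub, map_neg, map_sum, sumAlgEquiv_X_inl,
      sumAlgEquiv_X_inr, sumAlgEquiv_C_inl, rename_X, rename_C, gad]
    ring
  rw [top_sum, h1, LinearMap.map_add, top_C_mul, gads_one, map_sum,
    ← Finset.add_sum_erase univ _ (Finset.mem_univ b), gads_two_eq,
    Finset.sum_congr rfl (fun c hc => gads_two_ne _ _ _ b c (Finset.ne_of_mem_erase hc))]
  have h2 : C x * X () * ((C (e1 b) - C (e0 b)) * (-2) ^ (Fintype.card B - 1)) +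
      ((C (e0 b) * C (e1 b) + X () * (C (e0 b) + C (e1 b))) * (-2) ^ (Fintype.card B - 1) +
        ∑ c ∈ univ.erase b, ∏ b', (if b' = b then C (e1 b) - C (e0 b) else
          if b' = c then C (e1 c) - C (e0 c) else -2)) =
      C ((-2) ^ (Fintype.card B - 1) * ((1 - x) * e0 b + (1 + x) * e1 b)) * X () +
      (C ((e0 b) * (e1 b) * (-2) ^ (Fintype.card B - 1) +
        ∑ c ∈ univ.erase b, ∏ b', (if b' = b then (e1 b) - (e0 b) else
          if b' = c then (e1 c) - (e0 c) else -2)) : MvPolynomial Unit S) := by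
    simp only [map_add, map_mul, map_sub, map_one, map_pow, map_neg, map_ofNat, map_sum, map_prod,
      apply_ite (C : S →+* MvPolynomial Unit S)]
    ring
  rw [h2, top_unit]

end Pool.Agent.V7H63.Perm
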