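import Mathlib

/-!
# Coefficient of the product of all variables, and permanents
-/

set_option autoImplicit false

open MvPolynomial Finset

namespace Pool.Agent.V7H63.Perm

universe u

/-- the exponent vector all of whose entries are one -/
noncomputable def ones (J : Type) [Fintype J] : J →₀ ℕ :=
  Finsupp.equivFunOnFinite.symm fun _ => 1

@[simp] lemma ones_apply (J : Type) [Fintype J] (j : J) : ones J j = 1 := rfl

/-- the coefficient of the product of all variables -/
noncomputable def top (J : Type) [Fintype J] (S : Type u) [CommRing S] :
    MvPolynomial J S →ₗ[S] S :=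
  lcoeff S (ones J)

variable {J K : Type} [Fintype J] [Fintype K] {S : Type u} [CommRing S]

lemma top_apply (p : MvPolynomial J S) : top J S p = coeff (ones J) p := rfl

lemma top_C_mul (a : S) (p : MvPolynomial J S) : top J S (C a * p) = a * top J S p := by
  rw [top_apply, coeff_C_mul, top_apply]

lemma top_mul_C (a : S) (p : MvPolynomial J S) : top J S (p * C a) = top J S p * a := by
  rw [mul_comm, top_C_mul, mul_comm]

/-- Fubini -/
lemma top_sum (p : MvPolynomial (J ⊕ K) S) :
    top (J ⊕ K) S p = top K S (top J (MvPolynomial K S) (sumAlgEquiv S J K p)) := by
  classical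
  induction p using MvPolynomial.induction_on' with
  | add p q hp hq => simp only [map_add, hp, hq]
  | monomial m a =>
    have h1 : sumAlgEquiv S J K (monomial m a) =
        monomial (Finsupp.sumFinsuppEquivProdFinsupp m).1
          (monomial (Finsupp.sumFinsuppEquivProdFinsupp m).2 a) := by
      rw [monomial_eq, monomial_eq (R := MvPolynomial K S), monomial_eq (R := S)]
      rw [map_mul, sumAlgEquiv_C_inl, map_mul (C : MvPolynomial K S →+* _), mul_assoc]
      congr 1
      rw [Finsupp.prod_fintype _ _ (by intro i; simp), Finsupp.prod_fintype _ _ (by intro i; simp),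
        Finsupp.prod_fintype _ _ (by intro i; simp), map_prod, Fintype.prod_sum_type, map_prod,
        mul_comm]
      congr 1
      · apply Finset.prod_congr rfl
        intro i _
        rw [map_pow, sumAlgEquiv_X_inr, map_pow]
        rfl
      · apply Finset.prod_congr rfl
        intro i _
        rw [map_pow, sumAlgEquiv_X_inl]
        rfl
    rw [h1, top_apply, top_apply, top_apply, coeff_monomial, coeff_monomial]
    by_cases h : m = ones (J ⊕ K)
    · subst h
      rw [if_pos rfl, if_pos, coeff_monomial, if_pos]
      · ext i; rfl
      · ext i; rfl
    · rw [if_neg h]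
      split_ifs with h2
      · rw [coeff_monomial, if_neg]
        intro h3
        apply h
        ext i
        rcases i with i | i
        · exact DFunLike.congr_fun h2 i
        · exact DFunLike.congr_fun h3 i
      · simp

end Pool.Agent.V7H63.Perm
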