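import Pool.Agent.V7H63.Perm.Univ

/-!
# Two nets, put together
-/

set_option autoImplicit false

open MvPolynomial Finset

namespace Pool.Agent.V7H63.Perm

universe u

section

variable {I J : Type} [Fintype I] [DecidableEq I] [Fintype J] [DecidableEq J]
  {S : Type u} [CommRing S]

/-- the permanent of a matrix with different index types -/
def per (M : I → J → S) : S := ∑ e : I ≃ J, ∏ i, M i (e i)

lemma top_transpose (hc : Fintype.card I = Fintype.card J + 1) (a : I → S) (B : I → J → S) :
    top I S ((∑ i, C (a i) * X i) * ∏ j, ∑ i, C (B i j) * X i) =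
      top J S (∏ i, (C (a i) + ∑ j, C (B i j) * X j)) := by
  rw [top_prod_affine_card hc]
  have h1 : ((∑ i, C (a i) * X i) * ∏ j, ∑ i, C (B i j) * X i : MvPolynomial I S) =
      ∏ o : Option J, ∑ i, C (o.elim (a i) (B i)) * X i := by
    rw [Fintype.prod_option]
    rfl
  rw [h1, top_prod_linear]
  rw [← Equiv.sum_comp (Equiv.symmEquiv I (Option J))]
  apply Finset.sum_congr rfl
  intro e _
  rw [← Equiv.prod_comp e]
  apply Finset.prod_congr rfl
  intro i _
  simp

end

section

variable {L I J : Type} [Fintype L] [DecidableEq L] [Fintype I] [DecidableEq I]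
  [Fintype J] [DecidableEq J] {S : Type u} [CommRing S]

/-- the matrix which is made from two nets -/
def tm (A : I → J → ℤ) (out : I → (L → Bool) → ℤ) (rs : L → I) (cs : L → J)
    (x x' : L → S) (z : (L → Bool) → (L → Bool) → S) : I ⊕ J → J ⊕ I → S
  | Sum.inl i, Sum.inl j => ent A rs cs x i j
  | Sum.inl i, Sum.inr i' => ∑ b, (out i b : S) * ∑ b', (out i' b' : S) * z b b'
  | Sum.inr _, Sum.inl _ => 0
  | Sum.inr j, Sum.inr i' => ent A rs cs x' i' j

lemma two_sided {A : I → J → ℤ} {out : I → (L → Bool) → ℤ} {rs : L → I}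
    {cs : L → J} {c : ℕ} (h : IsNet.{u} A out rs cs c)
    (hc : Fintype.card I = Fintype.card J + 1)
    (x x' : L → S) (z : (L → Bool) → (L → Bool) → S) :
    per (tm A out rs cs x x' z) = (-2) ^ c * (-2) ^ c *
      ∑ b, ∑ b', (∏ l, (1 + sg (b l) * x l)) * (∏ l, (1 + sg (b' l) * x' l)) * z b b' := by
  rw [per, ← top_prod_linear, top_sum, map_prod, Fintype.prod_sum_type]
  have h1 : ∀ i : I, sumAlgEquiv S J I (∑ j, C (tm A out rs cs x x' z (Sum.inl i) j) * X j) =
      C (∑ b, (out i b : MvPolynomial I S) *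
        (∑ i', C (∑ b', (out i' b' : S) * z b b') * X i')) +
      ∑ j, C (ent A rs cs (fun l => C (x l)) i j) * X j := by
    intro i
    rw [Fintype.sum_sum_type]
    simp only [map_add, map_sum, map_mul, sumAlgEquiv_C_inl, sumAlgEquiv_X_inl,
      sumAlgEquiv_X_inr, tm, ent_C, Finset.sum_mul, Finset.mul_sum]
    rw [add_comm]
    congr 1
    rw [Finset.sum_comm]
    apply Finset.sum_congr rfl
    intro b _
    apply Finset.sum_congr rfl
    intro i' _
    apply Finset.sum_congr rfl
    intro b' _
    simp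
    ring
  have h2 : ∀ j : J, sumAlgEquiv S J I (∑ j', C (tm A out rs cs x x' z (Sum.inr j) j') * X j') =
      C (∑ i', C (ent A rs cs x' i' j) * X i') := by
    intro j
    rw [Fintype.sum_sum_type]
    simp only [map_add, map_sum, map_mul, sumAlgEquiv_C_inl, sumAlgEquiv_X_inl,
      sumAlgEquiv_X_inr, tm, map_zero, zero_mul, Finset.sum_const_zero, zero_add]
  simp only [h1, h2]
  rw [← map_prod, top_mul_C, h (MvPolynomial I S)]
  have h3 : ((-2) ^ c * ∑ b, (∏ l, (1 + sg (b l) * C (x l))) *
      (∑ i', C (∑ b', (out i' b' : S) * z b b') * X i') *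
      ∏ j, ∑ i', C (ent A rs cs x' i' j) * X i' :
        MvPolynomial I S) =
      ∑ b : L → Bool, C ((-2) ^ c * ∏ l, (1 + sg (b l) * x l)) *
        ((∑ i', C (∑ b', (out i' b' : S) * z b b') * X i') *
          ∏ j, ∑ i', C (ent A rs cs x' i' j) * X i') := by
    rw [Finset.mul_sum]
    apply Finset.sum_congr rfl
    intro b _
    have h3 : ∀ t : Bool, (C (sg t) : MvPolynomial I S) = sg t := by
      intro t
      cases t <;> simp [sg]
    simp only [map_mul, map_pow, map_neg, map_ofNat, map_prod, map_add, map_one, h3]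
    ring
  rw [mul_assoc, Finset.sum_mul, h3, map_sum, Finset.mul_sum]
  apply Finset.sum_congr rfl
  intro b _
  rw [top_C_mul, top_transpose hc, h S, Finset.mul_sum, Finset.mul_sum, Finset.mul_sum]
  apply Finset.sum_congr rfl
  intro b' _
  ring

/-- a multi-affine polynomial, from its coefficients -/
def ma {K : Type} [Fintype K] [DecidableEq K] (g : (K → Bool) → S) (y : K → S) : S :=
  ∑ t, g t * ∏ l, if t l then y l else 1

lemma ma_span {K : Type} [Fintype K] [DecidableEq K] (g : (K → Bool) → S) (y : K → S) (a : S)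
    (ha : a * 2 = 1) :
    ∑ b : K → Bool, (∏ l, (1 + sg (b l) * y l)) *
      (∑ t, g t * ∏ l, a * (if t l then sg (b l) else 1)) = ma g y := by
  rw [ma]
  simp_rw [Finset.mul_sum]
  rw [Finset.sum_comm]
  apply Finset.sum_congr rfl
  intro t _
  have h1 : ∀ l, (if t l then y l else 1) =
      ∑ v : Bool, (1 + sg v * y l) * (a * (if t l then sg v else 1)) := by
    intro l
    rw [Fintype.sum_bool]
    split_ifs
    · simp only [sg, if_true, Bool.false_eq_true, if_false]
      linear_combination (-y l) * ha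
    · simp only [sg, if_true, Bool.false_eq_true, if_false]
      linear_combination (-1) * ha
  simp_rw [h1]
  rw [Finset.prod_univ_sum, Fintype.piFinset_univ, Finset.mul_sum]
  apply Finset.sum_congr rfl
  intro b _
  rw [Finset.prod_mul_distrib (f := fun l => 1 + sg (b l) * y l)]
  ring

end

end Pool.Agent.V7H63.Perm
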