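import Pool.Agent.V7H63.Perm.Net

/-!
# The tree of gadgets: induction
-/

set_option autoImplicit false

open MvPolynomial Finset

namespace Pool.Agent.V7H63.Perm

universe u

/-- the matrix `A` with `rs`, `cs`, `out` produces the products of `1 + x l` and `1 - x l` -/
def IsNet.{v} {L I J : Type} [Fintype L] [DecidableEq L] [Fintype I] [DecidableEq I] [Fintype J]
    [DecidableEq J] (A : I → J → ℤ) (out : I → (L → Bool) → ℤ) (rs : L → I) (cs : L → J)
    (c : ℕ) : Prop :=
  ∀ (S : Type v) [CommRing S] (x : L → S) (e : (L → Bool) → S),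
    top J S (∏ i, (C (∑ b, (out i b : S) * e b) + ∑ j, C (ent A rs cs x i j) * X j)) =
      (-2) ^ c * ∑ b, (∏ l, (1 + sg (b l) * x l)) * e b

lemma sum_bits {L : Type} [Fintype L] [DecidableEq L] {S : Type u} [CommRing S]
    (x : Option L → S) (e : (Option L → Bool) → S) :
    ∑ b, (∏ l, (1 + sg (b l) * x l)) * e b =
      ∑ b : L → Bool, (∏ l, (1 + sg (b l) * x (some l))) *
        ((1 - x none) * e (ext b false) + (1 + x none) * e (ext b true)) := by
  have h1 : ∀ b : L → Bool, ∀ t : Bool, ((∏ l, (1 + sg (ext b t l) * x l)) : S) =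
      (1 + sg t * x none) * ∏ l, (1 + sg (b l) * x (some l)) := by
    intro b t
    rw [Fintype.prod_option]
    rfl
  have h2 : ∑ b, (∏ l, (1 + sg (b l) * x l)) * e b =
      ∑ b : L → Bool, ∑ t : Bool, (∏ l, (1 + sg (ext b t l) * x l)) * e (ext b t) := by
    rw [← Fintype.sum_prod_type', ← Equiv.sum_comp
      (((Equiv.prodComm _ _).trans (Equiv.piOptionEquivProd (α := L) (β := fun _ => Bool)).symm))]
    apply Finset.sum_congr rfl
    rintro ⟨b, t⟩ _
    have h3 : ((Equiv.prodComm _ _).trans
        (Equiv.piOptionEquivProd (α := L) (β := fun _ => Bool)).symm) (b, t) = ext b t := by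
      funext o
      rcases o with _ | l <;> rfl
    rw [h3]
  rw [h2]
  apply Finset.sum_congr rfl
  intro b _
  rw [Fintype.sum_bool, h1, h1]
  simp only [sg, if_true, Bool.false_eq_true, if_false]
  ring

lemma IsNet.step.{v} {L I J : Type} [Fintype L] [DecidableEq L] [Fintype I] [DecidableEq I]
    [Fintype J] [DecidableEq J] {A : I → J → ℤ} {out : I → (L → Bool) → ℤ} {rs : L → I}
    {cs : L → J} {c : ℕ} (h : IsNet.{v} A out rs cs c) :
    IsNet.{v} (nA A out) (nout L I) (nsp rs) (nsp cs) (c + (Fintype.card (L → Bool) - 1)) := by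
  intro S _ x e
  rw [top_sum, step_rows, top_mul_C, h]
  rw [sum_bits, pow_add, mul_assoc]
  have h1 : ((-2) ^ c * ∑ b, (∏ l, (1 + sg (b l) * C (x (some l)))) * X (Sum.inl (b, 0)) *
      stageRows (x none) (fun b => e (ext b false)) (fun b => e (ext b true)) :
        MvPolynomial (RK L) S) =
      ∑ b : L → Bool, C ((-2) ^ c * ∏ l, (1 + sg (b l) * x (some l))) * (X (Sum.inl (b, 0)) *
        stageRows (x none) (fun b => e (ext b false)) (fun b => e (ext b true))) := by
    rw [Finset.mul_sum]
    apply Finset.sum_congr rfl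
    intro b _
    have h3 : ∀ t : Bool, (C (sg t) : MvPolynomial (RK L) S) = sg t := by
      intro t
      cases t <;> simp [sg]
    simp only [map_mul, map_pow, map_neg, map_ofNat, map_prod, map_add, map_one, h3]
    ring
  rw [mul_assoc, Finset.sum_mul, h1, map_sum, Finset.mul_sum, Finset.mul_sum]
  apply Finset.sum_congr rfl
  intro b _
  rw [top_C_mul, stage]
  ring

lemma IsNet.zero.{v} : IsNet.{v} (L := Empty) (I := Unit) (J := Empty) (fun _ _ => 0)
    (fun _ _ => 1) (fun l => l.elim) (fun l => l.elim) 0 := by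
  intro S _ x e
  have h : (∏ i : Unit, (C (∑ b : Empty → Bool, (((1 : ℤ)) : S) * e b) +
      ∑ j : Empty, C (ent (fun _ _ => 0) (fun l => l.elim) (fun l => l.elim) x i j) * X j) :
      MvPolynomial Empty S) = C (∑ b, e b) * 1 := by
    simp
  rw [h, top_C_mul]
  have h2 : (top Empty S) 1 = 1 := by
    rw [top_apply, ← C_1, coeff_C, if_pos]
    ext i
    exact i.elim
  rw [h2]
  simp

/-- the theorem on the tree of gadgets -/
theorem exists_net.{v} (κ : ℕ) : ∃ (L I J : Type) (_ : Fintype L) (_ : DecidableEq L)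
    (_ : Fintype I) (_ : DecidableEq I) (_ : Fintype J) (_ : DecidableEq J)
    (A : I → J → ℤ) (out : I → (L → Bool) → ℤ) (rs : L → I) (cs : L → J) (c : ℕ),
    Function.Injective rs ∧ Function.Injective cs ∧ (∀ l, A (rs l) (cs l) = 0) ∧
    Fintype.card L = κ ∧
    Fintype.card I = Fintype.card J + 1 ∧ Fintype.card J + 3 = 3 * 2 ^ κ + κ ∧
    IsNet.{v} A out rs cs c := by
  induction κ with
  | zero =>
    refine ⟨Empty, Unit, Empty, inferInstance, inferInstance, inferInstance, inferInstance,
      inferInstance, inferInstance, _, _, _, _, _, ?_, ?_, ?_, ?_, ?_, ?_, IsNet.zero⟩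
    · intro a; exact a.elim
    · intro a; exact a.elim
    · intro a; exact a.elim
    · simp
    · simp
    · simp
  | succ κ ih =>
    obtain ⟨L, I, J, i1, i2, i3, i4, i5, i6, A, out, rs, cs, c, h1, h2, h0, h3, h4, h5, h6⟩ := ih
    refine ⟨Option L, I ⊕ RK L, J ⊕ RK L, inferInstance, inferInstance, inferInstance,
      inferInstance, inferInstance, inferInstance, _, _, _, _, _, nsp_inj rs h1, nsp_inj cs h2,
      ?_, ?_, ?_, ?_, h6.step⟩
    · rintro (_ | l)
      · rfl
      · exact h0 l
    · rw [Fintype.card_option, h3]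
    · simp only [Fintype.card_sum, Fintype.card_prod, Fintype.card_fun, Fintype.card_bool,
        Fintype.card_fin, Fintype.card_unit, h4]
      omega
    · simp only [Fintype.card_sum, Fintype.card_prod, Fintype.card_fun, Fintype.card_bool,
        Fintype.card_fin, Fintype.card_unit, h3]
      rw [pow_succ]
      omega

end Pool.Agent.V7H63.Perm
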